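import Pool.Agent.T2H43.WQ.Star

/-!
The annihilator of the two-point module is not the kernel of a homomorphism to
`F[t, t⁻¹, ∂] ⊗ A_n`.
-/

set_option autoImplicit false
set_option linter.unusedSectionVars false

namespace Pool.Agent.T2H43.WQ

open Pool.Agent.R693

section
variable {F : Type} [Field F] [CharZero F] {n : ℕ}

/-- The size of a label. -/
def sz (m : W.G ℤ) : ℤ := |m 0| + |m 1| + |m 2| + 3

lemma sz_ge (m : W.G ℤ) : 3 ≤ sz m := by
  unfold sz
  have h0 := abs_nonneg (m 0)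
  have h1 := abs_nonneg (m 1)
  have h2 := abs_nonneg (m 2)
  linarith

lemma sz_add (m k : W.G ℤ) : sz (m + k) ≤ sz m * (1 + sz k) := by
  have h0 := abs_add_le (m 0) (k 0)
  have h1 := abs_add_le (m 1) (k 1)
  have h2 := abs_add_le (m 2) (k 2)
  have h3 : sz (m + k) ≤ sz m + sz k := by
    unfold sz
    simp only [Pi.add_apply]
    linarith
  have h4 := sz_ge m
  have h5 := sz_ge k
  nlinarith

lemma act_TR (p : W.K F ℤ) (f : W.G ℤ → LW F n) (c : ℤ) (hc : 0 ≤ c)
    (hf : ∀ m, TR (c * sz m) (f m)) :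
    ∃ c' : ℤ, 0 ≤ c' ∧ ∀ m, TR (c' * sz m) (W.act (LW F n) p f m) := by
  induction p using AddMonoidAlgebra.induction_linear with
  | zero =>
    refine ⟨0, le_rfl, fun m => ?_⟩
    rw [map_zero]
    exact TR_zero _
  | add p q hp hq =>
    obtain ⟨c1, hc1, h1⟩ := hp
    obtain ⟨c2, hc2, h2⟩ := hq
    refine ⟨c1 + c2, by omega, fun m => ?_⟩
    rw [map_add, LinearMap.add_apply, Pi.add_apply]
    have h3 := sz_ge m
    exact ((h1 m).mono (by nlinarith)).add ((h2 m).mono (by nlinarith))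
  | single k r =>
    refine ⟨c * (1 + sz k), by have := sz_ge k; positivity, fun m => ?_⟩
    rw [W.act_single]
    refine ((hf (m + k)).mono ?_).smul r
    have h1 := sz_add m k
    nlinarith

lemma exists_TR_seq (E : ℤ → LW F n)
    (hE : ∀ m k : ℤ, m + k ≠ 0 → E m * E k - E k * E m = ((k - m : ℤ) : F) • E (m + k)) :
    ∃ c : ℤ, 0 ≤ c ∧ ∀ m, TR (c * (|m| + 1)) (E m) := by
  obtain ⟨w0, h0, t0⟩ := exists_TR (E 0)
  obtain ⟨w1, h1, t1⟩ := exists_TR (E 1)
  obtain ⟨w2, h2, t2⟩ := exists_TR (E 2)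
  obtain ⟨w3, h3, t3⟩ := exists_TR (E (-1))
  obtain ⟨w4, h4, t4⟩ := exists_TR (E (-2))
  set c := w0 + w1 + w2 + w3 + w4 with hc
  have hc0 : 0 ≤ c := by omega
  have key : ∀ s : ℤ, (s = 1 ∨ s = -1) → ∀ m : ℕ, TR (c * ((m : ℤ) + 1)) (E (s * m)) := by
    intro s hs
    have ts : TR c (E s) := by
      rcases hs with rfl | rfl
      · exact t1.mono (by omega)
      · exact t3.mono (by omega)
    intro m
    induction m using Nat.strong_induction_on with
    | _ m ih =>
      rcases Nat.lt_or_ge m 3 with hm | hm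
      · interval_cases m
        · rw [Nat.cast_zero, mul_zero]
          exact t0.mono (by omega)
        · rw [Nat.cast_one, mul_one]
          exact ts.mono (by omega)
        · rcases hs with rfl | rfl
          · exact t2.mono (by push_cast; omega)
          · exact t4.mono (by push_cast; omega)
      · obtain ⟨k, rfl⟩ := Nat.exists_eq_add_of_le hm
        have hk := ih (2 + k) (by omega)
        have e1 : s + s * ((2 + k : ℕ) : ℤ) = s * ((3 + k : ℕ) : ℤ) := by push_cast; ring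
        have e2 := hE s (s * ((2 + k : ℕ) : ℤ)) (by
          rw [e1]
          rcases hs with rfl | rfl
          · push_cast; omega
          · push_cast; omega)
        rw [e1] at e2
        have hne : ((s * ((2 + k : ℕ) : ℤ) - s : ℤ) : F) ≠ 0 := by
          rw [Int.cast_ne_zero]
          rcases hs with rfl | rfl
          · push_cast; omega
          · push_cast; omega
        have e3 : E (s * ((3 + k : ℕ) : ℤ)) = ((s * ((2 + k : ℕ) : ℤ) - s : ℤ) : F)⁻¹ •
            (E s * E (s * ((2 + k : ℕ) : ℤ)) - E (s * ((2 + k : ℕ) : ℤ)) * E s) := by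
          rw [e2, smul_smul, inv_mul_cancel₀ hne, one_smul]
        rw [e3]
        apply TR.smul
        apply TR.sub
        · exact (ts.mul hk).mono (by push_cast; nlinarith)
        · exact (hk.mul ts).mono (by push_cast; nlinarith)
  refine ⟨c, hc0, fun m => ?_⟩
  rcases le_total 0 m with hm | hm
  · have h5 := key 1 (Or.inl rfl) m.toNat
    rw [one_mul, Int.toNat_of_nonneg hm] at h5
    rwa [abs_of_nonneg hm]
  · have h5 := key (-1) (Or.inr rfl) (-m).toNat
    rw [Int.toNat_of_nonneg (by omega)] at h5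
    rw [abs_of_nonpos hm]
    have e : -1 * -m = m := by ring
    rwa [e] at h5

lemma gel_TR (E : ℤ → LW F n)
    (hE : ∀ m k : ℤ, m + k ≠ 0 → E m * E k - E k * E m = ((k - m : ℤ) : F) • E (m + k)) :
    ∃ c : ℤ, 0 ≤ c ∧ ∀ i j, TR (c * (|i| + |j| + 3)) (gel F E i j) := by
  obtain ⟨c, hc, hT⟩ := exists_TR_seq E hE
  have h1 : ∀ m : W.G ℤ, TR (c * sz m) (trip E m) := by
    intro m
    unfold trip
    refine (((hT _).mul (hT _)).mul (hT _)).mono ?_
    unfold sz
    exact le_of_eq (by ring)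
  obtain ⟨c', hc', h2⟩ := act_TR (Pi0 F) _ c hc h1
  refine ⟨c', hc', fun i j => ?_⟩
  have h3 := h2 (pt i j)
  have e : sz (pt i j) = |i| + |j| + 3 := by
    unfold sz pt
    simp
  rw [e] at h3
  exact h3

/-- The contradiction. -/
theorem contra {U : Type*} [Ring U] [Algebra F U] (e : ℤ → U)
    (he : ∀ m k : ℤ, m + k ≠ 0 → e m * e k - e k * e m = ((k - m : ℤ) : F) • e (m + k))
    (Φ : U →ₐ[F] Module.End F (MM F)) (hΦ : ∀ m, Φ (e m) = EN m)
    (ψ : U →ₐ[F] LW F n) (hker : ∀ a, Φ a = 0 ↔ ψ a = 0) : False := by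
  have hΦg : ∀ i j, Φ (gel F e i j) = gel F EN i j := by
    intro i j
    rw [gel_map]
    congr 1
    funext m
    exact hΦ m
  have hli : LinearIndependent F (fun p : ℤ × ℤ => ψ (gel F e p.1 p.2)) := by
    have h0 := gel_li (F := F)
    rw [linearIndependent_iff'] at h0 ⊢
    intro s c hc
    apply h0 s c
    have h1 : ψ (∑ p ∈ s, c p • gel F e p.1 p.2) = 0 := by
      rw [map_sum]
      refine Eq.trans (Finset.sum_congr rfl fun p _ => ?_) hc
      rw [map_smul]
    have h2 := (hker _).mpr h1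
    rw [map_sum] at h2
    refine Eq.trans (Finset.sum_congr rfl fun p _ => ?_) h2
    rw [map_smul, hΦg]
  have hne : ∀ i j, ψ (gel F e i j) ≠ 0 := fun i j => hli.ne_zero (i, j)
  have hstar : ∀ i j : ℤ, ψ (gel F e i j) * ψ (gel F e (-i) (-j)) =
      ((1 - j : ℤ) : F) • (ψ (gel F e 0 0) * ψ (gel F e 0 0)) +
        (j : F) • (ψ (gel F e 0 1) * ψ (gel F e 0 (-1))) := by
    intro i j
    have h1 : Φ (gel F e i j * gel F e (-i) (-j) - (((1 - j : ℤ) : F) •
        (gel F e 0 0 * gel F e 0 0) + (j : F) • (gel F e 0 1 * gel F e 0 (-1)))) = 0 := by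
      rw [map_sub, map_add, map_smul, map_smul, map_mul, map_mul, map_mul, hΦg, hΦg, hΦg, hΦg,
        hΦg, star i j, sub_self]
    have h2 := (hker _).mp h1
    rw [map_sub, map_add, map_smul, map_smul, map_mul, map_mul, map_mul, sub_eq_zero] at h2
    exact h2
  obtain ⟨c, hc, hT⟩ := gel_TR (fun m => ψ (e m)) (by
    intro m k hmk
    rw [← map_mul, ← map_mul, ← map_sub, he m k hmk, map_smul])
  refine no_family (max (dg (ψ (gel F e 0 0) * ψ (gel F e 0 0)))
    (dg (ψ (gel F e 0 1) * ψ (gel F e 0 (-1))))) c.toNat (3 * c.toNat)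
    (fun p : ℤ × ℤ => ψ (gel F e p.1 p.2)) ?_ ?_ hli
  · intro p
    have h1 := dg_mul (hne p.1 p.2) (hne (-p.1) (-p.2))
    rw [hstar] at h1
    have h2 := dg_add (((1 - p.2 : ℤ) : F) • (ψ (gel F e 0 0) * ψ (gel F e 0 0)))
      ((p.2 : F) • (ψ (gel F e 0 1) * ψ (gel F e 0 (-1))))
    have h3 := dg_smul ((1 - p.2 : ℤ) : F) (ψ (gel F e 0 0) * ψ (gel F e 0 0))
    have h4 := dg_smul (p.2 : F) (ψ (gel F e 0 1) * ψ (gel F e 0 (-1)))
    have h5 := h2.trans (max_le_max h3 h4)
    rw [h1] at h5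
    exact (Nat.le_add_right _ _).trans h5
  · intro p
    have h1 := hT p.1 p.2
    rw [← gel_map] at h1
    have h2 := h1 0 1 Rng.one
    refine h2.mono (le_of_eq ?_)
    push_cast
    rw [Int.toNat_of_nonneg hc]
    ring

end

end Pool.Agent.T2H43.WQ
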