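import Pool.Agent.T2H43.WQ.Lam

/-!
The total degree of the symbols is multiplicative.
-/

set_option autoImplicit false
set_option linter.unusedSectionVars false

namespace Pool.Agent.T2H43.WQ

open MvPolynomial

lemma fs_ind {σ : Type*} {P : (σ →₀ ℕ) → Prop} (h0 : P 0)
    (h : ∀ m i, P m → P (m + Finsupp.single i 1)) (m : σ →₀ ℕ) : P m := by
  classical
  induction m using Finsupp.induction with
  | zero => exact h0
  | single_add a b f _ _ ih =>
    clear * - ih h
    induction b with
    | zero => rwa [Finsupp.single_zero, zero_add]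
    | succ b ihb =>
      have h1 : Finsupp.single a (b + 1) + f = (Finsupp.single a b + f) + Finsupp.single a 1 := by
        rw [Finsupp.single_add, add_right_comm]
      rw [h1]
      exact h _ _ ihb

section
variable {F : Type} [Field F] {n : ℕ}

/-- The total degree is less than `N`. -/
def Lo (N : ℕ) (f : Sy F n) : Prop := f = 0 ∨ f.totalDegree < N

lemma Lo_succ {N : ℕ} {f : Sy F n} : Lo (N + 1) f ↔ f.totalDegree ≤ N := by
  constructor
  · rintro (rfl | h)
    · rw [totalDegree_zero]; exact Nat.zero_le _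
    · omega
  · intro h; right; omega

lemma Lo.zero (N : ℕ) : Lo N (0 : Sy F n) := Or.inl rfl

lemma Lo.add {N : ℕ} {f h : Sy F n} (hf : Lo N f) (hh : Lo N h) : Lo N (f + h) := by
  rcases hf with rfl | hf
  · rwa [zero_add]
  rcases hh with rfl | hh
  · rw [add_zero]; exact Or.inr hf
  right
  have := totalDegree_add f h
  have h1 := max_lt hf hh
  omega

lemma Lo.neg {N : ℕ} {f : Sy F n} (hf : Lo N f) : Lo N (-f) := by
  rcases hf with rfl | hf
  · rw [neg_zero]; exact Lo.zero N
  · right; rwa [totalDegree_neg]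

lemma Lo.sub {N : ℕ} {f h : Sy F n} (hf : Lo N f) (hh : Lo N h) : Lo N (f - h) := by
  rw [sub_eq_add_neg]; exact hf.add hh.neg

lemma Lo.mono {N M : ℕ} (h : N ≤ M) {f : Sy F n} (hf : Lo N f) : Lo M f := by
  rcases hf with rfl | hf
  · exact Lo.zero M
  · right; omega

lemma Lo.mul {C M : ℕ} {p r : Sy F n} (hp : Lo (C + 1) p) (hr : Lo M r) : Lo (M + C) (p * r) := by
  rcases hr with rfl | hr
  · rw [mul_zero]; exact Lo.zero _
  right
  rw [Lo_succ] at hp
  have := totalDegree_mul p r
  omega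

lemma totalDegree_DT (f : Sy F n) : (DT f).totalDegree ≤ f.totalDegree := by
  apply totalDegree_le_of_support_subset
  intro m hm
  rw [mem_support_iff] at hm ⊢
  intro h
  apply hm
  rw [coeff_DT, h, map_zero]

lemma totalDegree_pderiv (v : Vr n) (f : Sy F n) : (pderiv v f).totalDegree ≤ f.totalDegree := by
  unfold totalDegree
  apply Finset.sup_le
  intro m hm
  rw [mem_support_iff, coeff_pderiv] at hm
  have h1 : m + Finsupp.single v 1 ∈ f.support := by
    rw [mem_support_iff]
    intro h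
    apply hm
    rw [h, zero_mul]
  have h2 := le_totalDegree h1
  rw [Finsupp.sum_add_index' (by simp) (by simp)] at h2
  exact le_trans (Nat.le_add_right _ _) h2

/-- `p` is the leading symbol, of degree `C`, of `a`. -/
def Sym (a : LW F n) (p : Sy F n) (C : ℕ) : Prop :=
  Lo (C + 1) p ∧ ∀ (N : ℕ) (f : Sy F n), Lo (N + 1) f → Lo (N + C) (ρ a f - p * f)

lemma Sym.mono {a : LW F n} {p : Sy F n} {C C' : ℕ} (h : Sym a p C) (hC : C ≤ C') :
    Sym a p C' :=
  ⟨h.1.mono (by omega), fun N f hf => (h.2 N f hf).mono (by omega)⟩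

lemma Sym.add {a b : LW F n} {p q : Sy F n} {C : ℕ} (h : Sym a p C) (h' : Sym b q C) :
    Sym (a + b) (p + q) C := by
  refine ⟨h.1.add h'.1, fun N f hf => ?_⟩
  have e : ρ (a + b) f - (p + q) * f = (ρ a f - p * f) + (ρ b f - q * f) := by
    rw [map_add, LinearMap.add_apply]; ring
  rw [e]
  exact (h.2 N f hf).add (h'.2 N f hf)

lemma Sym.mul {a b : LW F n} {p q : Sy F n} {C C' : ℕ} (h : Sym a p C) (h' : Sym b q C') :
    Sym (a * b) (p * q) (C + C') := by
  refine ⟨?_, fun N f hf => ?_⟩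
  · have := h.1.mul h'.1
    exact this.mono (by omega)
  · have e : ρ (a * b) f - p * q * f = (ρ a (ρ b f) - p * ρ b f) + p * (ρ b f - q * f) := by
      rw [map_mul, Module.End.mul_apply]; ring
    rw [e]
    have h1 := h'.2 N f hf
    have h2 : Lo (N + C' + 1) (ρ b f) := by
      have h3 : Lo (N + C' + 1) (q * f) := (h'.1.mul hf).mono (by omega)
      have h4 := (h1.mono (Nat.le_succ _)).add h3
      rwa [sub_add_cancel] at h4
    exact ((h.2 _ _ h2).mono (by omega)).add ((h.1.mul h1).mono (by omega))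

lemma Sym_zero (C : ℕ) : Sym (0 : LW F n) 0 C := by
  refine ⟨Lo.zero _, fun N f _ => ?_⟩
  rw [map_zero, LinearMap.zero_apply, zero_mul, sub_zero]
  exact Lo.zero _

lemma Sym_one : Sym (1 : LW F n) 1 0 := by
  refine ⟨?_, fun N f _ => ?_⟩
  · rw [Lo_succ, totalDegree_one]
  · rw [map_one, Module.End.one_apply, one_mul, sub_self]
    exact Lo.zero _

lemma ρ_ΦR (r : RL F) (f : Sy F n) : ρ (ΦR r) f = C r * f := by
  induction r using RL_induction generalizing f with
  | h0 r =>
    rw [LaurentPolynomial.C_eq_algebraMap, AlgHom.commutes, AlgHom.commutes,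
      Module.algebraMap_end_apply, ← MvPolynomial.algebraMap_eq, Algebra.smul_def,
      IsScalarTower.algebraMap_apply F (RL F) (Sy F n)]
  | ha f h hf hh => rw [map_add, map_add, LinearMap.add_apply, hf, hh, map_add, add_mul]
  | h1 g hg => rw [map_mul, map_mul, ΦR_T, ρ_γ, Module.End.mul_apply, hg, op_t, map_mul, mul_assoc]
  | h2 g hg =>
    rw [map_mul, map_mul, ΦR_Tinv, ρ_γ, Module.End.mul_apply, hg, op_tinv, map_mul, mul_assoc]

lemma Sym_ΦR (r : RL F) : Sym (n := n) (ΦR r) (C r) 0 := by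
  refine ⟨?_, fun N f _ => ?_⟩
  · rw [Lo_succ, totalDegree_C]
  · rw [ρ_ΦR, sub_self]; exact Lo.zero _

lemma Sym_s (i : Fin n) : Sym (F := F) (γ (Gen.s i)) (X (Sum.inl i)) 1 := by
  refine ⟨?_, fun N f _ => ?_⟩
  · rw [Lo_succ, totalDegree_X]
  · rw [ρ_γ, op_s, sub_self]; exact Lo.zero _

lemma Sym_pp (i : Option (Fin n)) : Sym (F := F) (pp i) (X (Sum.inr i)) 1 := by
  refine ⟨?_, fun N f hf => ?_⟩
  · rw [Lo_succ, totalDegree_X]
  · rw [Lo_succ] at hf
    cases i with
    | none =>
      rw [pp, ρ_γ, op_d, add_sub_cancel_left, Lo_succ]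
      exact (totalDegree_DT f).trans hf
    | some i =>
      rw [pp, ρ_γ, op_p, add_sub_cancel_left, Lo_succ]
      exact (totalDegree_pderiv _ f).trans hf

lemma mon_inr' (m : Vr n →₀ ℕ) (i : Option (Fin n)) :
    mon (F := F) (m + Finsupp.single (Sum.inr i) 1) = mon m * pp i := by
  unfold mon
  rw [m0_add_inr, m1_add_inr, ← Φp_X, mul_assoc, ← map_mul]
  congr 2
  rw [X, monomial_mul, one_mul]

lemma Sym_mon (m : Vr n →₀ ℕ) : Sym (F := F) (mon m) (monomial m 1) (m.sum fun _ e => e) := by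
  induction m using fs_ind with
  | h0 =>
    have h1 : mon (F := F) (0 : Vr n →₀ ℕ) = 1 := by
      have := Λ_one (F := F) (n := n)
      have h2 : (1 : Sy F n) = monomial 0 1 := rfl
      rwa [h2, Λ_monomial, map_one, one_mul] at this
    rw [h1]
    exact Sym_one
  | h m v ih =>
    have e1 : ((m + Finsupp.single v 1).sum fun _ e => e) = (m.sum fun _ e => e) + 1 := by
      rw [Finsupp.sum_add_index' (by simp) (by simp), Finsupp.sum_single_index rfl]
    have e2 : (monomial (m + Finsupp.single v 1) 1 : Sy F n) = X v * monomial m 1 := by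
      rw [X, monomial_mul, one_mul, add_comm]
    rw [e1]
    cases v with
    | inl i =>
      rw [mon_inl, e2, add_comm]
      exact (Sym_s i).mul ih
    | inr i =>
      rw [mon_inr', e2, mul_comm]
      exact ih.mul (Sym_pp i)

lemma Sym_Λ (f : Sy F n) : Sym (Λ f) f f.totalDegree := by
  have h1 : ∀ s : Finset (Vr n →₀ ℕ), s ⊆ f.support →
      Sym (Λ (∑ m ∈ s, monomial m (coeff m f))) (∑ m ∈ s, monomial m (coeff m f))
        f.totalDegree := by
    intro s
    classical
    induction s using Finset.induction_on with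
    | empty => intro _; rw [Finset.sum_empty, map_zero]; exact Sym_zero _
    | insert a s ha ih =>
      intro hs
      rw [Finset.sum_insert ha, map_add]
      refine Sym.add ?_ (ih (fun x hx => hs (Finset.mem_insert_of_mem hx)))
      rw [Λ_monomial]
      have h2 := (Sym_ΦR (n := n) (coeff a f)).mul (Sym_mon (F := F) a)
      rw [C_mul_monomial, mul_one, zero_add] at h2
      exact h2.mono (le_totalDegree (hs (Finset.mem_insert_self a s)))
  have h2 := h1 f.support subset_rfl
  rwa [← f.as_sum] at h2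

/-- The degree of an element. -/
noncomputable def dg (a : LW F n) : ℕ := (ρ a 1).totalDegree

lemma sym_symbol (a : LW F n) : Sym a (ρ a 1) (dg a) := by
  have := Sym_Λ (ρ a 1)
  rwa [Λ_symbol] at this

lemma ρ_one_ne {a : LW F n} (ha : a ≠ 0) : ρ a 1 ≠ 0 := by
  intro h
  apply ha
  rw [← Λ_symbol a, h, map_zero]

lemma symbol_mul {a b : LW F n} (ha : a ≠ 0) (hb : b ≠ 0) :
    ρ (a * b) 1 ≠ 0 ∧ dg (a * b) = dg a + dg b := by
  have h1 := (sym_symbol a).mul (sym_symbol b)
  have h2 := h1.2 0 1 (by rw [Lo_succ, totalDegree_one])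
  rw [mul_one, zero_add] at h2
  have h3 : (ρ a 1 * ρ b 1).totalDegree = dg a + dg b :=
    totalDegree_mul_of_isDomain (ρ_one_ne ha) (ρ_one_ne hb)
  have h4 : ρ a 1 * ρ b 1 ≠ 0 := mul_ne_zero (ρ_one_ne ha) (ρ_one_ne hb)
  rcases h2 with h2 | h2
  · rw [sub_eq_zero] at h2
    unfold dg at h3 ⊢
    rw [h2]
    exact ⟨h4, h3⟩
  · have h5 : ρ (a * b) 1 = ρ a 1 * ρ b 1 + (ρ (a * b) 1 - ρ a 1 * ρ b 1) := by ring
    have h6 : dg (a * b) = dg a + dg b := by
      unfold dg at h3 ⊢
      rw [h5, totalDegree_add_eq_left_of_totalDegree_lt]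
      · exact h3
      · rw [h3]; exact h2
    refine ⟨fun h => ?_, h6⟩
    rw [h, zero_sub, totalDegree_neg, h3] at h2
    omega

lemma mul_ne {a b : LW F n} (ha : a ≠ 0) (hb : b ≠ 0) : a * b ≠ 0 := by
  intro h
  apply (symbol_mul ha hb).1
  rw [h, map_zero, LinearMap.zero_apply]

lemma dg_mul {a b : LW F n} (ha : a ≠ 0) (hb : b ≠ 0) : dg (a * b) = dg a + dg b :=
  (symbol_mul ha hb).2

lemma dg_add (a b : LW F n) : dg (a + b) ≤ max (dg a) (dg b) := by
  unfold dg
  rw [map_add, LinearMap.add_apply]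
  exact totalDegree_add _ _

lemma dg_smul (r : F) (a : LW F n) : dg (r • a) ≤ dg a := by
  unfold dg
  rw [map_smul, LinearMap.smul_apply]
  apply totalDegree_le_of_support_subset
  intro m hm
  rw [mem_support_iff] at hm ⊢
  intro h
  apply hm
  rw [coeff_smul, h, smul_zero]

end

end Pool.Agent.T2H43.WQ
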