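import Pool.Agent.T2H43.WQ.Two
import Pool.Agent.R693.W.Shift

/-!
The elements of the enveloping algebra acting as (commuting functions) times a fixed element.
-/

set_option autoImplicit false
set_option linter.unusedSectionVars false

namespace Pool.Agent.T2H43.WQ

open Pool.Agent.R693

/-- The difference operator. -/
noncomputable def Pi0 (F : Type) [Field F] : W.K F ℤ :=
  W.D 0 2 ^ 3 * (W.D 1 2 ^ 3 * W.D 0 1 ^ 2)

/-- Triple products. -/
def trip {A : Type*} [Mul A] (x : ℤ → A) (n : W.G ℤ) : A := x (n 0) * x (n 1) * x (n 2)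

/-- The label with the entries `i, 0, j`. -/
def pt (i j : ℤ) : W.G ℤ := fun a => if a = 0 then i else if a = 2 then j else 0

/-- The elements. -/
noncomputable def gel (F : Type) [Field F] {A : Type*} [Ring A] [Algebra F A] (x : ℤ → A)
    (i j : ℤ) : A :=
  W.act A (Pi0 F) (trip x) (pt i j)

lemma gel_map {F : Type} [Field F] {A B : Type*} [Ring A] [Algebra F A] [Ring B] [Algebra F B]
    (φ : A →ₐ[F] B) (x : ℤ → A) (i j : ℤ) :
    φ (gel F x i j) = gel F (fun n => φ (x n)) i j := by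
  unfold gel
  have h1 : trip (fun n => φ (x n)) = fun n => φ.toLinearMap (trip x n) := by
    funext n
    unfold trip
    rw [AlgHom.toLinearMap_apply, map_mul, map_mul]
  rw [h1, W.act_map]
  rfl

section
variable {F : Type} [Field F] [CharZero F]

lemma one1 : (W.Lab.one : ℤ) = 1 := rfl

lemma act_xx0 {a b : ℕ} (hab : a ≠ b) :
    W.act (Module.End F (MM F)) (W.D a b ^ 2 : W.K F ℤ) (fun n => xx 0 (n a) * xx 0 (n b)) = 0 := by
  funext n
  rw [W.act_D2, Pi.zero_apply]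
  simp only [Pi.add_apply, W.dl_self, W.dl_ne hab, W.dl_ne hab.symm, one1, xx_mul, cw, if_true,
    zero_mul, add_zero]
  have e1 : n a + 1 + 1 + n b = n a + n b + 2 := by ring
  have e2 : n a + 1 + (n b + 1) = n a + n b + 2 := by ring
  have e3 : n a + (n b + 1 + 1) = n a + n b + 2 := by ring
  rw [e1, e2, e3]
  push_cast
  module

lemma act_xx1 {a b : ℕ} (hab : a ≠ b) :
    W.act (Module.End F (MM F)) (W.D a b ^ 2 : W.K F ℤ) (fun n => xx 1 (n a) * xx 1 (n b)) =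
      fun n => (-4 : F) • yy 1 (n a + n b + 2) := by
  funext n
  rw [W.act_D2]
  have hc : cw 1 = 1 := rfl
  simp only [Pi.add_apply, W.dl_self, W.dl_ne hab, W.dl_ne hab.symm, one1, xx_mul, hc,
    one_mul, add_zero]
  have e1 : n a + 1 + 1 + n b = n a + n b + 2 := by ring
  have e2 : n a + 1 + (n b + 1) = n a + n b + 2 := by ring
  have e3 : n a + (n b + 1 + 1) = n a + n b + 2 := by ring
  rw [e1, e2, e3]
  push_cast
  module

lemma act3_xx0 {a b : ℕ} (hab : a ≠ b) :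
    W.act (Module.End F (MM F)) (W.D a b ^ 3 : W.K F ℤ) (fun n => xx 0 (n a) * xx 0 (n b)) = 0 := by
  rw [W.act_pow_succ', act_xx0 hab, map_zero]

lemma act3_xx1 {a b : ℕ} (hab : a ≠ b) :
    W.act (Module.End F (MM F)) (W.D a b ^ 3 : W.K F ℤ) (fun n => xx 1 (n a) * xx 1 (n b)) = 0 := by
  rw [W.act_pow_succ', act_xx1 hab]
  funext n
  rw [W.act_D, Pi.zero_apply]
  simp only [Pi.add_apply, W.dl_self, W.dl_ne hab, W.dl_ne hab.symm, one1, add_zero]
  have e1 : n a + 1 + n b = n a + (n b + 1) := by ring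
  rw [e1, sub_self]

lemma act3_xx (s : Fin 2) {a b : ℕ} (hab : a ≠ b) :
    W.act (Module.End F (MM F)) (W.D a b ^ 3 : W.K F ℤ) (fun n => xx s (n a) * xx s (n b)) = 0 := by
  fin_cases s
  · exact act3_xx0 hab
  · exact act3_xx1 hab

lemma ind_coord {A : Type*} (x : ℤ → A) {a b : ℕ} (hab : a ≠ b) :
    W.Ind (fun n : W.G ℤ => x (n a)) b := by
  intro n n' h
  beta_reduce
  rw [h a hab]

lemma ind_one {A : Type*} [One A] (b : ℕ) : W.Ind (fun _ : W.G ℤ => (1 : A)) b :=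
  fun _ _ _ => rfl

end

section abs
variable {F : Type} [Field F] {A : Type*} [Ring A] [Algebra F A]

/-- Triple products of operators at points. -/
def tt (x : Fin 2 → ℤ → A) (i j k : Fin 2) (n : W.G ℤ) : A :=
  x i (n 0) * x j (n 1) * x k (n 2)

variable {x : Fin 2 → ℤ → A}

lemma kill12 (h3 : ∀ (s : Fin 2) (a b : ℕ), a ≠ b →
    W.act A (W.D a b ^ 3 : W.K F ℤ) (fun n => x s (n a) * x s (n b)) = 0) (i j : Fin 2) :
    W.act A (W.D 1 2 ^ 3 : W.K F ℤ) (tt x i j j) = 0 := by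
  have h := W.act_Dpow_mul (C := F) (ι := ℤ) (a := 1) (b := 2)
    (u := fun n : W.G ℤ => x i (n 0)) (w := fun _ => (1 : A))
    (ind_coord _ (by decide)) (ind_coord _ (by decide)) (ind_one _) (ind_one _) 3
    (fun n => x j (n 1) * x j (n 2))
  have e : tt x i j j = fun n => x i (n 0) * (x j (n 1) * x j (n 2)) * 1 := by
    funext n; unfold tt; rw [mul_one, mul_assoc]
  rw [e, h, h3 j 1 2 (by decide)]
  funext n
  simp only [Pi.zero_apply, mul_zero, zero_mul]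

lemma kill02 (h3 : ∀ (s : Fin 2) (a b : ℕ), a ≠ b →
    W.act A (W.D a b ^ 3 : W.K F ℤ) (fun n => x s (n a) * x s (n b)) = 0)
    (hc : ∀ (i j : Fin 2), i ≠ j → ∀ m n, x i m * x j n = x j n * x i m)
    {i j : Fin 2} (hij : i ≠ j) :
    W.act A (W.D 0 2 ^ 3 : W.K F ℤ) (tt x i j i) = 0 := by
  have h := W.act_Dpow_mul (C := F) (ι := ℤ) (a := 0) (b := 2)
    (u := fun n : W.G ℤ => x j (n 1)) (w := fun _ => (1 : A))
    (ind_coord _ (by decide)) (ind_coord _ (by decide)) (ind_one _) (ind_one _) 3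
    (fun n => x i (n 0) * x i (n 2))
  have e : tt x i j i = fun n => x j (n 1) * (x i (n 0) * x i (n 2)) * 1 := by
    funext n; unfold tt; rw [mul_one, hc i j hij, mul_assoc]
  rw [e, h, h3 i 0 2 (by decide)]
  funext n
  simp only [Pi.zero_apply, mul_zero, zero_mul]

lemma kill01 (h2 : ∀ (a b : ℕ), a ≠ b →
    W.act A (W.D a b ^ 2 : W.K F ℤ) (fun n => x 0 (n a) * x 0 (n b)) = 0) (k : Fin 2) :
    W.act A (W.D 0 1 ^ 2 : W.K F ℤ) (tt x 0 0 k) = 0 := by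
  have h := W.act_Dpow_mul (C := F) (ι := ℤ) (a := 0) (b := 1)
    (u := fun _ => (1 : A)) (w := fun n : W.G ℤ => x k (n 2))
    (ind_one _) (ind_one _) (ind_coord _ (by decide)) (ind_coord _ (by decide)) 2
    (fun n => x 0 (n 0) * x 0 (n 1))
  have e : tt x 0 0 k = fun n => 1 * (x 0 (n 0) * x 0 (n 1)) * x k (n 2) := by
    funext n; unfold tt; rw [one_mul]
  rw [e, h, h2 0 1 (by decide)]
  funext n
  simp only [Pi.zero_apply, mul_zero, zero_mul]

variable {Y0 Y1 : ℤ → A} {z : A}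

lemma keep01 (h1 : ∀ (a b : ℕ), a ≠ b →
    W.act A (W.D a b ^ 2 : W.K F ℤ) (fun n => x 1 (n a) * x 1 (n b)) =
      fun n => (-4 : F) • Y1 (n a + n b + 2)) (hx : ∀ n, x 0 n = Y0 n * z) :
    W.act A (W.D 0 1 ^ 2 : W.K F ℤ) (tt x 1 1 0) =
      fun n => (-4 : F) • (Y1 (n 0 + n 1 + 2) * (Y0 (n 2) * z)) := by
  have h := W.act_Dpow_mul (C := F) (ι := ℤ) (a := 0) (b := 1)
    (u := fun _ => (1 : A)) (w := fun n : W.G ℤ => x 0 (n 2))
    (ind_one _) (ind_one _) (ind_coord _ (by decide)) (ind_coord _ (by decide)) 2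
    (fun n => x 1 (n 0) * x 1 (n 1))
  have e : tt x 1 1 0 = fun n => 1 * (x 1 (n 0) * x 1 (n 1)) * x 0 (n 2) := by
    funext n; unfold tt; rw [one_mul]
  rw [e, h, h1 0 1 (by decide)]
  funext n
  rw [one_mul, hx, smul_mul_assoc]

lemma keep_step (h00 : ∀ m n, Y0 m * Y0 n = Y0 (m + n)) (h11 : ∀ m n, Y1 m * Y1 n = Y1 (m + n))
    (h01 : ∀ m n, Y0 m * Y1 n = Y1 n * Y0 m) {a : ℕ} (ha : a = 0 ∨ a = 1) (k : ℕ) (c : F) :
    W.act A (W.D a 2 ^ k : W.K F ℤ)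
      (fun n => c • (Y1 (n 0 + n 1 + 2) * (Y0 (n 2) * z))) =
      fun n => c • ((Y1 1 - Y0 1) ^ k * (Y1 (n 0 + n 1 + 2) * (Y0 (n 2) * z))) := by
  have h1 : ∀ (u : A), W.act A (W.D a 2 : W.K F ℤ)
      (fun n => c • (u * (Y1 (n 0 + n 1 + 2) * (Y0 (n 2) * z)))) =
      fun n => c • (u * (Y1 1 - Y0 1) * (Y1 (n 0 + n 1 + 2) * (Y0 (n 2) * z))) := by
    intro u
    funext n
    rw [W.act_D, ← smul_sub]
    congr 1
    have hz : ∀ v : A, Y1 1 * (Y1 (n 0 + n 1 + 2) * v) =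
        Y1 (n 0 + n 1 + 2 + 1) * v := fun v => by
      rw [← mul_assoc, h11, add_comm (1 : ℤ)]
    have hy : Y0 1 * (Y1 (n 0 + n 1 + 2) * (Y0 (n 2) * z)) =
        Y1 (n 0 + n 1 + 2) * (Y0 (n 2 + 1) * z) := by
      rw [← mul_assoc, h01, mul_assoc, ← mul_assoc (Y0 1), h00, add_comm (1 : ℤ)]
    rw [mul_assoc u, sub_mul, hz, hy, ← mul_sub]
    congr 1
    rcases ha with rfl | rfl
    · simp only [Pi.add_apply, W.dl_self, one1, W.dl_ne (show (0 : ℕ) ≠ 1 by decide),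
        W.dl_ne (show (0 : ℕ) ≠ 2 by decide), W.dl_ne (show (2 : ℕ) ≠ 0 by decide),
        W.dl_ne (show (2 : ℕ) ≠ 1 by decide), add_zero]
      rw [show n 0 + 1 + n 1 + 2 = n 0 + n 1 + 2 + 1 by ring]
    · simp only [Pi.add_apply, W.dl_self, one1, W.dl_ne (show (1 : ℕ) ≠ 0 by decide),
        W.dl_ne (show (1 : ℕ) ≠ 2 by decide), W.dl_ne (show (2 : ℕ) ≠ 0 by decide),
        W.dl_ne (show (2 : ℕ) ≠ 1 by decide), add_zero]
      rw [show n 0 + (n 1 + 1) + 2 = n 0 + n 1 + 2 + 1 by ring]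
  induction k with
  | zero =>
    rw [pow_zero, W.act_one, pow_zero]
    simp only [one_mul]
  | succ k ih =>
    rw [W.act_pow_succ', ih, h1, pow_succ]

lemma trip_eq : trip (fun n => -(x 0 n + x 1 n)) = (-1 : F) • (tt x 0 0 0 + tt x 0 0 1 +
    tt x 0 1 0 + tt x 0 1 1 + tt x 1 0 0 + tt x 1 0 1 + tt x 1 1 0 + tt x 1 1 1) := by
  funext m
  simp only [Pi.smul_apply, Pi.add_apply, neg_one_smul]
  unfold trip tt
  noncomm_ring

lemma act_trip (h3 : ∀ (s : Fin 2) (a b : ℕ), a ≠ b →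
      W.act A (W.D a b ^ 3 : W.K F ℤ) (fun n => x s (n a) * x s (n b)) = 0)
    (h2 : ∀ (a b : ℕ), a ≠ b →
      W.act A (W.D a b ^ 2 : W.K F ℤ) (fun n => x 0 (n a) * x 0 (n b)) = 0)
    (h1 : ∀ (a b : ℕ), a ≠ b →
      W.act A (W.D a b ^ 2 : W.K F ℤ) (fun n => x 1 (n a) * x 1 (n b)) =
        fun n => (-4 : F) • Y1 (n a + n b + 2))
    (hx : ∀ n, x 0 n = Y0 n * z)
    (hc : ∀ (i j : Fin 2), i ≠ j → ∀ m n, x i m * x j n = x j n * x i m)
    (h00 : ∀ m n, Y0 m * Y0 n = Y0 (m + n)) (h11 : ∀ m n, Y1 m * Y1 n = Y1 (m + n))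
    (h01 : ∀ m n, Y0 m * Y1 n = Y1 n * Y0 m) (n : W.G ℤ) :
    W.act A (Pi0 F) (trip (fun n => -(x 0 n + x 1 n))) n =
      (4 : F) • ((Y1 1 - Y0 1) ^ 6 * (Y1 (n 0 + n 1 + 2) * (Y0 (n 2) * z))) := by
  have hP1 : ∀ f : W.G ℤ → A, W.act A (Pi0 F) f =
      W.act A (W.D 0 2 ^ 3 : W.K F ℤ) (W.act A (W.D 1 2 ^ 3 : W.K F ℤ)
        (W.act A (W.D 0 1 ^ 2 : W.K F ℤ) f)) := by
    intro f
    unfold Pi0
    rw [W.act_mul, W.act_mul]
  have hP2 : ∀ f : W.G ℤ → A, W.act A (Pi0 F) f =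
      W.act A (W.D 0 2 ^ 3 : W.K F ℤ) (W.act A (W.D 0 1 ^ 2 : W.K F ℤ)
        (W.act A (W.D 1 2 ^ 3 : W.K F ℤ) f)) := by
    intro f
    rw [hP1, W.act_comm (W.D 1 2 ^ 3)]
  have hP3 : ∀ f : W.G ℤ → A, W.act A (Pi0 F) f =
      W.act A (W.D 1 2 ^ 3 : W.K F ℤ) (W.act A (W.D 0 1 ^ 2 : W.K F ℤ)
        (W.act A (W.D 0 2 ^ 3 : W.K F ℤ) f)) := by
    intro f
    rw [hP1, W.act_comm (W.D 0 2 ^ 3), W.act_comm (W.D 0 2 ^ 3)]
  have k000 : W.act A (Pi0 F) (tt x 0 0 0) = 0 := by rw [hP1, kill01 h2, map_zero, map_zero]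
  have k001 : W.act A (Pi0 F) (tt x 0 0 1) = 0 := by rw [hP1, kill01 h2, map_zero, map_zero]
  have k010 : W.act A (Pi0 F) (tt x 0 1 0) = 0 := by
    rw [hP3, kill02 h3 hc (by decide), map_zero, map_zero]
  have k011 : W.act A (Pi0 F) (tt x 0 1 1) = 0 := by rw [hP2, kill12 h3, map_zero, map_zero]
  have k100 : W.act A (Pi0 F) (tt x 1 0 0) = 0 := by rw [hP2, kill12 h3, map_zero, map_zero]
  have k101 : W.act A (Pi0 F) (tt x 1 0 1) = 0 := by
    rw [hP3, kill02 h3 hc (by decide), map_zero, map_zero]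
  have k111 : W.act A (Pi0 F) (tt x 1 1 1) = 0 := by rw [hP2, kill12 h3, map_zero, map_zero]
  have k110 : W.act A (Pi0 F) (tt x 1 1 0) =
      fun n => (-4 : F) • ((Y1 1 - Y0 1) ^ 6 * (Y1 (n 0 + n 1 + 2) * (Y0 (n 2) * z))) := by
    rw [hP1, keep01 h1 hx, keep_step h00 h11 h01 (Or.inr rfl)]
    have h4 := W.act_Dpow_mul (C := F) (ι := ℤ) (a := 0) (b := 2)
      (u := fun _ => (Y1 1 - Y0 1) ^ 3) (w := fun _ => (1 : A))
      (fun _ _ _ => rfl) (fun _ _ _ => rfl) (ind_one _) (ind_one _) 3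
      (fun n => (-4 : F) • (Y1 (n 0 + n 1 + 2) * (Y0 (n 2) * z)))
    simp only [mul_one, mul_smul_comm] at h4
    rw [h4, keep_step h00 h11 h01 (Or.inl rfl)]
    funext n
    rw [mul_smul_comm, ← mul_assoc, ← pow_add]
  rw [trip_eq (F := F), map_smul]
  simp only [map_add, k000, k001, k010, k011, k100, k101, k111, k110, zero_add, add_zero]
  rw [Pi.smul_apply, smul_smul]
  norm_num

end abs

section
variable {F : Type} [Field F] [CharZero F]

/-- The difference `y_1 - y_0`. -/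
noncomputable def dd (F : Type) [Field F] : Module.End F (MM F) := yy 1 1 - yy 0 1

/-- The value of the elements. -/
lemma gel_EN (i j : ℤ) : gel F (EN (F := F)) i j =
    (4 : F) • (dd F ^ 6 * (yy 1 (i + 2) * (yy 0 j * zz 0))) := by
  have h := act_trip (F := F) (A := Module.End F (MM F)) (x := xx) (Y0 := yy 0) (Y1 := yy 1)
    (z := zz 0) (fun s _ _ hab => act3_xx s hab) (fun _ _ hab => act_xx0 hab)
    (fun _ _ hab => act_xx1 hab) (fun n => by unfold xx cw; simp)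
    (fun _ _ hij m n => xx_comm_ne hij m n) (yy_mul 0) (yy_mul 1) (yy_comm 0 1) (pt i j)
  have e : pt i j 0 + pt i j 1 + 2 = i + 2 := by simp [pt]
  have e2 : pt i j 2 = j := by simp [pt]
  rw [e, e2] at h
  exact h

end

end Pool.Agent.T2H43.WQ
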