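import Pool.Agent.T2H43.WQ.Weyl

/-!
The inverse of the symbol map.
-/

set_option autoImplicit false
set_option linter.unusedSectionVars false

namespace Pool.Agent.T2H43.WQ

open MvPolynomial

/-- A commuting family defines a map from the polynomial ring. -/
lemma exists_comm_hom (F : Type) [Field F] {A : Type} [Ring A] [Algebra F A] {ι : Type} (x : ι → A)
    (h : ∀ i j, x i * x j = x j * x i) :
    ∃ Φ : MvPolynomial ι F →ₐ[F] A, ∀ i, Φ (X i) = x i := by
  have hc : ∀ a ∈ Set.range x, ∀ b ∈ Set.range x, a * b = b * a := by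
    rintro _ ⟨i, rfl⟩ _ ⟨j, rfl⟩
    exact h i j
  let _ : CommRing (Algebra.adjoin F (Set.range x)) := Algebra.adjoinCommRingOfComm F hc
  refine ⟨(Algebra.adjoin F (Set.range x)).val.comp
    (MvPolynomial.aeval (R := F) (fun i => (⟨x i, Algebra.subset_adjoin ⟨i, rfl⟩⟩ :
      Algebra.adjoin F (Set.range x)))), fun i => ?_⟩
  rw [AlgHom.comp_apply, aeval_X]
  rfl

section
variable {F : Type} [Field F] {n : ℕ}

/-- Monomials in the `s_i`. -/
noncomputable def Φs : MvPolynomial (Fin n) F →ₐ[F] LW F n :=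
  (exists_comm_hom F (fun i : Fin n => γ (F := F) (Gen.s i)) (fun i j => γ_s_s i j)).choose

lemma Φs_X (i : Fin n) : Φs (F := F) (X i) = γ (Gen.s i) :=
  (exists_comm_hom F (fun i : Fin n => γ (F := F) (Gen.s i)) (fun i j => γ_s_s i j)).choose_spec i

/-- The derivations as a family. -/
noncomputable def pp : Option (Fin n) → LW F n
  | none => γ Gen.d
  | some i => γ (Gen.p i)

lemma pp_comm (i j : Option (Fin n)) : pp (F := F) i * pp j = pp j * pp i := by
  cases i with
  | none =>
    cases j with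
    | none => rfl
    | some j => exact γ_d_p j
  | some i =>
    cases j with
    | none => exact (γ_d_p i).symm
    | some j => exact γ_p_p i j

/-- Monomials in the derivations. -/
noncomputable def Φp : MvPolynomial (Option (Fin n)) F →ₐ[F] LW F n :=
  (exists_comm_hom F (pp (F := F) (n := n)) pp_comm).choose

lemma Φp_X (i : Option (Fin n)) : Φp (F := F) (X i) = pp i :=
  (exists_comm_hom F (pp (F := F) (n := n)) pp_comm).choose_spec i

/-- The unit `t`. -/
noncomputable def tu : (LW F n)ˣ := ⟨γ Gen.t, γ Gen.tinv, γ_t_tinv, γ_tinv_t⟩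

/-- Laurent polynomials in `t`. -/
noncomputable def ΦR : RL F →ₐ[F] LW F n :=
  AddMonoidAlgebra.lift F (LW F n) ℤ ((Units.coeHom _).comp (zpowersHom _ tu))

lemma ΦR_single (i : ℤ) (r : F) : ΦR (n := n) (AddMonoidAlgebra.single i r) =
    r • ((tu ^ i : (LW F n)ˣ) : LW F n) := by
  unfold ΦR
  rw [AddMonoidAlgebra.lift_single]
  rfl

lemma ΦR_T : ΦR (n := n) (LaurentPolynomial.T 1 : RL F) = γ Gen.t := by
  unfold LaurentPolynomial.T
  rw [ΦR_single, one_smul, zpow_one]
  rfl

lemma ΦR_Tinv : ΦR (n := n) (LaurentPolynomial.T (-1) : RL F) = γ Gen.tinv := by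
  unfold LaurentPolynomial.T
  rw [ΦR_single, one_smul, zpow_neg_one]
  rfl

/-- Commutation with `t⁻¹`. -/
lemma comm_tinv {x : LW F n} (h : γ Gen.t * x = x * γ Gen.t) : γ Gen.tinv * x = x * γ Gen.tinv := by
  calc γ Gen.tinv * x = γ Gen.tinv * x * (γ Gen.t * γ Gen.tinv) := by rw [γ_t_tinv, mul_one]
    _ = γ Gen.tinv * (x * γ Gen.t) * γ Gen.tinv := by noncomm_ring
    _ = (γ Gen.tinv * γ Gen.t) * x * γ Gen.tinv := by rw [← h]; noncomm_ring
    _ = _ := by rw [γ_tinv_t, one_mul]

/-- Induction for Laurent polynomials. -/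
lemma RL_induction {P : RL F → Prop} (h0 : ∀ r : F, P (LaurentPolynomial.C r))
    (ha : ∀ f h, P f → P h → P (f + h)) (h1 : ∀ f, P f → P (LaurentPolynomial.T 1 * f))
    (h2 : ∀ f, P f → P (LaurentPolynomial.T (-1) * f)) (f : RL F) : P f := by
  induction f using LaurentPolynomial.induction_on with
  | h_C a => exact h0 a
  | h_add hp hq => exact ha _ _ hp hq
  | h_C_mul_T n a h =>
    have := h1 _ h
    rw [mul_left_comm, ← LaurentPolynomial.T_add] at this
    rwa [add_comm (1 : ℤ)] at this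
  | h_C_mul_T_Z n a h =>
    have := h2 _ h
    rw [mul_left_comm, ← LaurentPolynomial.T_add] at this
    rw [show (-1 : ℤ) + -(n : ℤ) = -(n : ℤ) - 1 by ring] at this
    exact this

lemma ΦR_comm {x : LW F n} (h : γ Gen.t * x = x * γ Gen.t) (f : RL F) : x * ΦR f = ΦR f * x := by
  induction f using RL_induction with
  | h0 r =>
    rw [LaurentPolynomial.C_eq_algebraMap, AlgHom.commutes]
    exact (Algebra.commutes r x).symm
  | ha f h hf hh => rw [map_add, mul_add, add_mul, hf, hh]
  | h1 f hf => rw [map_mul, ΦR_T, ← mul_assoc, ← h, mul_assoc, hf, mul_assoc]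
  | h2 f hf => rw [map_mul, ΦR_Tinv, ← mul_assoc, ← comm_tinv h, mul_assoc, hf, mul_assoc]

lemma D_T_inv_mul (f : RL F) : D F (LaurentPolynomial.T (-1) * f) =
    LaurentPolynomial.T (-1) * D F f - LaurentPolynomial.T (-1) * LaurentPolynomial.T (-1) * f := by
  have h1 := D_T_mul (LaurentPolynomial.T (-1) * f)
  rw [← mul_assoc, ← LaurentPolynomial.T_add] at h1
  simp only [Int.reduceNeg, add_neg_cancel, LaurentPolynomial.T_zero, one_mul] at h1
  have h2 : (LaurentPolynomial.T (-1) * LaurentPolynomial.T 1 : RL F) = 1 := by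
    rw [← LaurentPolynomial.T_add]; simp
  calc D F (LaurentPolynomial.T (-1) * f)
      = (LaurentPolynomial.T (-1) * LaurentPolynomial.T 1) * D F (LaurentPolynomial.T (-1) * f) := by
        rw [h2, one_mul]
    _ = LaurentPolynomial.T (-1) * (LaurentPolynomial.T 1 * D F (LaurentPolynomial.T (-1) * f)
        + LaurentPolynomial.T (-1) * f) -
          LaurentPolynomial.T (-1) * LaurentPolynomial.T (-1) * f := by ring
    _ = _ := by rw [← h1]

lemma d_ΦR (f : RL F) : γ Gen.d * ΦR (n := n) f = ΦR f * γ Gen.d + ΦR (D F f) := by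
  induction f using RL_induction with
  | h0 r =>
    have h1 : D F (LaurentPolynomial.C r) = 0 := by
      rw [← LaurentPolynomial.single_eq_C, D_single]; simp
    rw [h1, map_zero, add_zero, LaurentPolynomial.C_eq_algebraMap, AlgHom.commutes]
    exact (Algebra.commutes r _).symm
  | ha f h hf hh => simp only [map_add, mul_add, add_mul, hf, hh]; abel
  | h1 f hf =>
    rw [D_T_mul, map_mul, map_add, map_mul, ΦR_T, ← mul_assoc, γ_d_t, add_mul, mul_assoc, hf]
    noncomm_ring
  | h2 f hf =>
    have h3 : γ Gen.d * γ Gen.tinv = γ (F := F) (Gen.tinv : Gen n) * γ Gen.d -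
        γ Gen.tinv * γ Gen.tinv := by
      calc γ Gen.d * γ Gen.tinv = (γ Gen.tinv * γ Gen.t) * γ Gen.d * γ (F := F) (Gen.tinv : Gen n) := by
            rw [γ_tinv_t, one_mul]
        _ = γ Gen.tinv * (γ Gen.d * γ Gen.t - 1) * γ (F := F) (Gen.tinv : Gen n) := by
            rw [γ_d_t, add_sub_cancel_right]; simp only [mul_assoc]
        _ = γ Gen.tinv * γ Gen.d * (γ Gen.t * γ Gen.tinv) -
              γ (F := F) (Gen.tinv : Gen n) * γ Gen.tinv := by
            simp only [mul_sub, sub_mul, mul_one, mul_assoc]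
        _ = _ := by rw [γ_t_tinv, mul_one]
    rw [D_T_inv_mul, map_mul, map_sub, map_mul, map_mul, map_mul, ΦR_Tinv, ← mul_assoc, h3,
      sub_mul, mul_assoc, hf]
    noncomm_ring

lemma p_Φs (i : Fin n) (f : MvPolynomial (Fin n) F) :
    γ (Gen.p i) * Φs f = Φs f * γ (Gen.p i) + Φs (pderiv i f) := by
  classical
  induction f using MvPolynomial.induction_on with
  | C a =>
    rw [pderiv_C, map_zero, add_zero, ← MvPolynomial.algebraMap_eq, AlgHom.commutes]
    exact (Algebra.commutes a _).symm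
  | add f h hf hh => simp only [map_add, mul_add, add_mul, hf, hh]; abel
  | mul_X f j hf =>
    rw [pderiv_mul, map_mul, map_add, map_mul, map_mul, Φs_X, ← mul_assoc, hf, add_mul, mul_assoc,
      γ_p_s, pderiv_X, Pi.single_apply]
    by_cases hij : i = j
    · subst hij
      simp only [if_true, map_one]
      noncomm_ring
    · simp only [if_neg hij, if_neg (Ne.symm hij), map_zero]
      noncomm_ring

lemma Φs_comm {x : LW F n} (h : ∀ i, x * γ (Gen.s i) = γ (Gen.s i) * x)
    (f : MvPolynomial (Fin n) F) : x * Φs f = Φs f * x := by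
  induction f using MvPolynomial.induction_on with
  | C a =>
    rw [← MvPolynomial.algebraMap_eq, AlgHom.commutes]
    exact (Algebra.commutes a _).symm
  | add f h hf hh => simp only [map_add, mul_add, add_mul, hf, hh]
  | mul_X f j hf => rw [map_mul, Φs_X, ← mul_assoc, hf, mul_assoc, h, mul_assoc]

/-- The `s`-part of an exponent. -/
noncomputable def m0 (m : Vr n →₀ ℕ) : Fin n →₀ ℕ := m.comapDomain Sum.inl Sum.inl_injective.injOn

/-- The `∂`-part of an exponent. -/
noncomputable def m1 (m : Vr n →₀ ℕ) : Option (Fin n) →₀ ℕ :=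
  m.comapDomain Sum.inr Sum.inr_injective.injOn

lemma m0_apply (m : Vr n →₀ ℕ) (i : Fin n) : m0 m i = m (Sum.inl i) := rfl
lemma m1_apply (m : Vr n →₀ ℕ) (i : Option (Fin n)) : m1 m i = m (Sum.inr i) := rfl

/-- The ordered product of a monomial. -/
noncomputable def mon (m : Vr n →₀ ℕ) : LW F n := Φs (monomial (m0 m) 1) * Φp (monomial (m1 m) 1)

/-- The inverse of the symbol map. -/
noncomputable def Λ : Sy F n →ₗ[F] LW F n where
  toFun f := Finsupp.sum (AddMonoidAlgebra.coeff f) fun m r => ΦR r * mon m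
  map_add' f h := by
    rw [AddMonoidAlgebra.coeff_add, Finsupp.sum_add_index']
    · intro m; rw [map_zero, zero_mul]
    · intro m a b; rw [map_add, add_mul]
  map_smul' r f := by
    have h1 : Finsupp.sum (r • AddMonoidAlgebra.coeff f) (fun m r => ΦR r * mon (F := F) m) =
        Finsupp.sum (AddMonoidAlgebra.coeff f) (fun m a => ΦR (r • a) * mon (F := F) m) :=
      Finsupp.sum_smul_index' (fun m => by rw [map_zero, zero_mul])
    have h2 : ∀ (m : Vr n →₀ ℕ) (a : RL F), ΦR (r • a) * mon (F := F) m =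
        r • (ΦR a * mon (F := F) m) := fun m a => by
      rw [map_smul ΦR r a, smul_mul_assoc]
    rw [RingHom.id_apply, AddMonoidAlgebra.coeff_smul, h1]
    simp only [h2]
    rw [Finsupp.sum, Finsupp.sum, Finset.smul_sum]

lemma Λ_monomial (m : Vr n →₀ ℕ) (r : RL F) : Λ (monomial m r) = ΦR r * mon m := by
  show Finsupp.sum (AddMonoidAlgebra.coeff (AddMonoidAlgebra.single m r))
    (fun m r => ΦR r * mon (F := F) m) = _
  rw [AddMonoidAlgebra.coeff_single, Finsupp.sum_single_index]
  rw [map_zero, zero_mul]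

lemma DT_monomial (m : Vr n →₀ ℕ) (r : RL F) : DT (monomial m r) = monomial m (D F r) := by
  classical
  apply MvPolynomial.ext
  intro m'
  rw [coeff_DT, coeff_monomial, coeff_monomial]
  split_ifs
  · rfl
  · rw [map_zero]

lemma m0_add_inl (m : Vr n →₀ ℕ) (i : Fin n) :
    m0 (m + Finsupp.single (Sum.inl i) 1) = m0 m + Finsupp.single i 1 := by
  classical
  ext j
  simp only [m0_apply, Finsupp.add_apply, Finsupp.single_apply, Sum.inl.injEq]

lemma m1_add_inl (m : Vr n →₀ ℕ) (i : Fin n) :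
    m1 (m + Finsupp.single (Sum.inl i) 1) = m1 m := by
  classical
  ext j
  simp [m1_apply]

lemma m0_add_inr (m : Vr n →₀ ℕ) (i : Option (Fin n)) :
    m0 (m + Finsupp.single (Sum.inr i) 1) = m0 m := by
  classical
  ext j
  simp [m0_apply]

lemma m1_add_inr (m : Vr n →₀ ℕ) (i : Option (Fin n)) :
    m1 (m + Finsupp.single (Sum.inr i) 1) = m1 m + Finsupp.single i 1 := by
  classical
  ext j
  simp only [m1_apply, Finsupp.add_apply, Finsupp.single_apply, Sum.inr.injEq]

lemma mon_inl (m : Vr n →₀ ℕ) (i : Fin n) :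
    mon (F := F) (m + Finsupp.single (Sum.inl i) 1) = γ (Gen.s i) * mon m := by
  unfold mon
  rw [m0_add_inl, m1_add_inl, ← Φs_X, ← mul_assoc, ← map_mul]
  congr 2
  rw [X, monomial_mul, one_mul, add_comm]

lemma mon_inr (m : Vr n →₀ ℕ) (i : Option (Fin n)) :
    mon (F := F) (m + Finsupp.single (Sum.inr i) 1) = Φs (monomial (m0 m) 1) * pp i *
      Φp (monomial (m1 m) 1) := by
  unfold mon
  rw [m0_add_inr, m1_add_inr, ← Φp_X, mul_assoc, ← map_mul]
  congr 2
  rw [X, monomial_mul, one_mul, add_comm]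

/-- The inverse of the symbol map is equivariant. -/
lemma Λ_op_monomial (x : Gen n) (m : Vr n →₀ ℕ) (r : RL F) :
    Λ (op x (monomial m r)) = γ x * Λ (monomial m r) := by
  classical
  cases x with
  | t => rw [op_t, C_mul_monomial, Λ_monomial, Λ_monomial, map_mul, ΦR_T, mul_assoc]
  | tinv => rw [op_tinv, C_mul_monomial, Λ_monomial, Λ_monomial, map_mul, ΦR_Tinv, mul_assoc]
  | d =>
    have h1 : (X (Sum.inr none) * monomial m r : Sy F n) =
        monomial (m + Finsupp.single (Sum.inr none) 1) r := by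
      rw [X, monomial_mul, one_mul, add_comm]
    have h2 : γ Gen.d * Φs (monomial (m0 m) (1 : F)) = Φs (monomial (m0 m) 1) * γ Gen.d :=
      Φs_comm (fun i => γ_d_s i) _
    rw [op_d, h1, DT_monomial, map_add, Λ_monomial, Λ_monomial, Λ_monomial, mon_inr,
      ← mul_assoc (γ Gen.d), d_ΦR, add_mul, mul_assoc (ΦR r) (γ Gen.d), mon, ← mul_assoc (γ Gen.d),
      h2]
    rfl
  | s i =>
    have h1 : (X (Sum.inl i) * monomial m r : Sy F n) =
        monomial (m + Finsupp.single (Sum.inl i) 1) r := by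
      rw [X, monomial_mul, one_mul, add_comm]
    rw [op_s, h1, Λ_monomial, Λ_monomial, mon_inl, ← mul_assoc, ← mul_assoc,
      ΦR_comm (γ_t_s i)]
  | p i =>
    have h1 : (X (Sum.inr (some i)) * monomial m r : Sy F n) =
        monomial (m + Finsupp.single (Sum.inr (some i)) 1) r := by
      rw [X, monomial_mul, one_mul, add_comm]
    have h3 : Λ (pderiv (Sum.inl i : Vr n) (monomial m r)) =
        ΦR r * (Φs (pderiv i (monomial (m0 m) 1)) * Φp (monomial (m1 m) 1)) := by
      have e0 : m0 (m - Finsupp.single (Sum.inl i) 1) = m0 m - Finsupp.single i 1 := by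
        ext j
        simp only [m0_apply, Finsupp.tsub_apply, Finsupp.single_apply, Sum.inl.injEq]
      have e1 : m1 (m - Finsupp.single (Sum.inl i) 1) = m1 m := by
        ext j
        simp [m1_apply]
      rw [pderiv_monomial, pderiv_monomial, Λ_monomial, mon, e0, e1, m0_apply, one_mul]
      have h4 : (monomial (m0 m - Finsupp.single i 1) ((m (Sum.inl i) : ℕ) : F)) =
          (m (Sum.inl i)) • (monomial (m0 m - Finsupp.single i 1) (1 : F)) := by
        rw [← map_nsmul, nsmul_eq_mul, mul_one]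
      rw [h4, map_nsmul, smul_mul_assoc, mul_smul_comm, ← nsmul_eq_mul', map_nsmul,
        smul_mul_assoc]
    rw [op_p, h1, map_add, h3, Λ_monomial, Λ_monomial, mon_inr, ← mul_assoc (γ (Gen.p i)),
      ΦR_comm (γ_t_p i), mul_assoc (ΦR r) (γ (Gen.p i)), mon, ← mul_assoc (γ (Gen.p i)), p_Φs,
      add_mul, mul_add]
    rfl

lemma Λ_op (x : Gen n) (f : Sy F n) : Λ (op x f) = γ x * Λ f := by
  rw [f.as_sum, map_sum, map_sum, map_sum, Finset.mul_sum]
  exact Finset.sum_congr rfl fun m _ => Λ_op_monomial x m _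

lemma Λ_ρ (a : LW F n) (f : Sy F n) : Λ (ρ a f) = a * Λ f := by
  induction a using LW.induction generalizing f with
  | hc r =>
    rw [AlgHom.commutes, Module.algebraMap_end_apply, map_smul, Algebra.smul_def]
  | hg x => rw [ρ_γ, Λ_op]
  | ha a b iha ihb => rw [map_add, LinearMap.add_apply, map_add, iha, ihb, add_mul]
  | hm a b iha ihb => rw [map_mul, Module.End.mul_apply, iha, ihb, mul_assoc]

lemma Λ_one : Λ (1 : Sy F n) = 1 := by
  have h1 : (1 : Sy F n) = monomial 0 1 := rfl
  have e0 : m0 (0 : Vr n →₀ ℕ) = 0 := by ext j; rfl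
  have e1 : m1 (0 : Vr n →₀ ℕ) = 0 := by ext j; rfl
  rw [h1, Λ_monomial, mon, map_one, one_mul, e0, e1]
  have h2 : (monomial 0 1 : MvPolynomial (Fin n) F) = 1 := rfl
  have h3 : (monomial 0 1 : MvPolynomial (Option (Fin n)) F) = 1 := rfl
  rw [h2, h3, map_one, map_one, one_mul]

/-- The symbol determines the element. -/
lemma Λ_symbol (a : LW F n) : Λ (ρ a 1) = a := by rw [Λ_ρ, Λ_one, mul_one]

end

end Pool.Agent.T2H43.WQ
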