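import Pool.Agent.T2H43.WQ.Two

/-!
The two-point module is simple.
-/

set_option autoImplicit false
set_option linter.unusedSectionVars false

namespace Pool.Agent.T2H43.WQ

open MvPolynomial Pool.Agent.R693.Q

section
variable {F : Type} [Field F] [CharZero F]

lemma xx_apply (s : Fin 2) (n : ℤ) (q : MM F) : xx s n q =
    lam F s ^ n • (sh (Pi.single s n) (X s * q) + ((cw s * n : ℤ) : F) • sh (Pi.single s n) q) := by
  unfold xx
  rw [LinearMap.add_apply, LinearMap.smul_apply, Module.End.mul_apply, yy_apply, yy_apply, zz_apply,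
    smul_add, smul_comm (lam F s ^ n)]

lemma EN_apply (n : ℤ) (q : MM F) : EN n q = -(∑ s, xx s n q) := by
  unfold EN
  rw [LinearMap.neg_apply, LinearMap.add_apply, Fin.sum_univ_two]

variable (N : Submodule F (MM F))

/-- The basic sequences times the index. -/
noncomputable def mb (s : Fin 2) (f : MM F) : ℤ → MM F ⧸ N := fun m => (m : F) • bf N (lam F) s f m

lemma EE_mb (s : Fin 2) (f : MM F) :
    (EE N - lam F s • (1 : Module.End F (ℤ → MM F ⧸ N))) (mb N s f) =
      lam F s • mb N s (sh (Pi.single s 1) f - f) + EE N (bf N (lam F) s f) := by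
  have h1 := EE_bf N lam_ne s f
  funext m
  have h2 := congrFun h1 m
  rw [LinearMap.sub_apply, LinearMap.smul_apply, Module.End.one_apply, Pi.sub_apply, Pi.smul_apply]
    at h2 ⊢
  rw [Pi.smul_apply] at h2
  rw [Pi.add_apply, Pi.smul_apply]
  change ((m + 1 : ℤ) : F) • bf N (lam F) s f (m + 1) - lam F s • ((m : F) • bf N (lam F) s f m) =
    lam F s • ((m : F) • bf N (lam F) s (sh (Pi.single s 1) f - f) m) + bf N (lam F) s f (m + 1)
  change bf N (lam F) s f (m + 1) - lam F s • bf N (lam F) s f m =
    lam F s • bf N (lam F) s (sh (Pi.single s 1) f - f) m at h2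
  rw [smul_comm (lam F s) (m : F) (bf N (lam F) s (sh (Pi.single s 1) f - f) m), ← h2]
  push_cast
  module

lemma EE_pow_mb (s : Fin 2) (d : ℕ) : ∀ f ∈ LT (Fin 2) F d,
    ((EE N - lam F s • (1 : Module.End F (ℤ → MM F ⧸ N))) ^ (d + 1)) (mb N s f) = 0 := by
  induction d with
  | zero =>
    intro f hf
    have h1 : mb N s f = 0 := by
      rw [LT_zero hf]
      funext m
      unfold mb bf
      rw [map_zero, smul_zero]
      exact smul_zero _
    rw [h1, map_zero]
  | succ d ih =>
    intro f hf
    have hc : Commute (EE N) (EE N - lam F s • (1 : Module.End F (ℤ → MM F ⧸ N))) :=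
      Commute.sub_right (Commute.refl _) ((Commute.one_right _).smul_right _)
    have h1 : ((EE N - lam F s • (1 : Module.End F (ℤ → MM F ⧸ N))) ^ (d + 1))
        (EE N (bf N (lam F) s f)) = 0 := by
      rw [← Module.End.mul_apply, ← (hc.pow_right (d + 1)).eq, Module.End.mul_apply,
        EE_pow_bf N lam_ne s (d + 1) f hf, map_zero]
    rw [pow_succ, Module.End.mul_apply, EE_mb, map_add, h1, map_smul, ih _ (sh_sub_mem _ hf),
      smul_zero, add_zero]

variable {N}

lemma isolate2 (hN : ∀ n, ∀ q ∈ N, EN n q ∈ N) {q : MM F} (hq : q ∈ N) (s : Fin 2) (m : ℤ) :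
    sh (Pi.single s m) (X s * q) + ((cw s * m : ℤ) : F) • sh (Pi.single s m) q ∈ N := by
  have hind : iSupIndep (fun s => (EE N).maxGenEigenspace (lam F s)) :=
    (Module.End.independent_maxGenEigenspace (EE N)).comp lam_inj
  rw [iSupIndep_iff_finsetSum_eq_zero_imp_eq_zero] at hind
  have e1 : ∀ s : Fin 2, (bf N (lam F) s (X s * q) + ((cw s : ℤ) : F) • mb N s q) =
      fun m => Submodule.Quotient.mk (p := N) (xx s m q) := by
    intro s
    funext m
    rw [Pi.add_apply, Pi.smul_apply]
    unfold mb bf
    rw [← Submodule.Quotient.mk_smul, ← Submodule.Quotient.mk_smul, ← Submodule.Quotient.mk_add,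
      xx_apply]
    congr 1
    push_cast
    rw [smul_add, smul_smul, smul_smul, smul_smul]
    congr 2
    ring
  have h1 := hind Finset.univ (fun s => bf N (lam F) s (X s * q) + ((cw s : ℤ) : F) • mb N s q) (by
    intro s _
    apply Submodule.add_mem
    · rw [Module.End.mem_maxGenEigenspace]
      obtain ⟨d, hd⟩ := exists_LT (X s * q)
      exact ⟨d, EE_pow_bf N lam_ne s d _ hd⟩
    · apply Submodule.smul_mem
      rw [Module.End.mem_maxGenEigenspace]
      obtain ⟨d, hd⟩ := exists_LT q
      exact ⟨d + 1, EE_pow_mb N s d _ hd⟩) (by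
    funext m
    rw [Finset.sum_apply]
    have h2 : ∑ s, (bf N (lam F) s (X s * q) + ((cw s : ℤ) : F) • mb N s q) m =
        (Submodule.mkQ N) (∑ s, xx s m q) := by
      rw [map_sum]
      refine Finset.sum_congr rfl fun s _ => ?_
      rw [e1]
      rfl
    rw [h2, Pi.zero_apply, Submodule.mkQ_apply, Submodule.Quotient.mk_eq_zero]
    have h3 := N.neg_mem (hN m q hq)
    rwa [EN_apply, neg_neg] at h3) s (Finset.mem_univ s)
  have h2 := congrFun h1 m
  rw [e1, Pi.zero_apply, Submodule.Quotient.mk_eq_zero, xx_apply] at h2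
  have h3 := N.smul_mem (lam F s ^ m)⁻¹ h2
  rwa [smul_smul, inv_mul_cancel₀ (zpow_ne_zero _ (lam_ne s)), one_smul] at h3

/-- Solutions of a difference equation vanish. -/
lemma diff_zero (s : Fin 2) {b : ℕ} (hb : 0 < b) {r : MM F}
    (h : (X s + C ((b : ℕ) : F)) * sh (Pi.single s 1) r = X s * r) : r = 0 := by
  have h1 : ∀ (m : ℕ) (x : Fin 2 → F), x s = m → eval (x + Pi.single s 1) r = 0 := by
    intro m
    induction m with
    | zero =>
      intro x hx
      have h2 := congrArg (eval x) h
      rw [map_mul, map_mul, map_add, eval_X, eval_C, hx, Nat.cast_zero, zero_add, zero_mul,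
        eval_sh] at h2
      have h3 : (fun i => x i + (((Pi.single s 1 : Fin 2 → ℤ) i : ℤ) : F)) = x + Pi.single s 1 := by
        funext i
        rw [Pi.add_apply]
        congr 1
        by_cases hi : i = s
        · subst hi; simp
        · simp [hi]
      rw [h3] at h2
      rcases mul_eq_zero.mp h2 with h4 | h4
      · exact absurd h4 (by exact_mod_cast hb.ne')
      · exact h4
    | succ m ih =>
      intro x hx
      have h2 := congrArg (eval x) h
      have h5 : eval x r = 0 := by
        have h6 := ih (x - Pi.single s 1) (by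
          rw [Pi.sub_apply, Pi.single_eq_same, hx]; push_cast; ring)
        rwa [sub_add_cancel] at h6
      rw [map_mul, map_mul, map_add, eval_X, eval_C, h5, mul_zero, eval_sh] at h2
      have h3 : (fun i => x i + (((Pi.single s 1 : Fin 2 → ℤ) i : ℤ) : F)) = x + Pi.single s 1 := by
        funext i
        rw [Pi.add_apply]
        congr 1
        by_cases hi : i = s
        · subst hi; simp
        · simp [hi]
      rw [h3] at h2
      rcases mul_eq_zero.mp h2 with h4 | h4
      · rw [hx] at h4
        exfalso
        have h7 : ((m + 1 + b : ℕ) : F) ≠ 0 := by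
          rw [Nat.cast_ne_zero]; omega
        apply h7
        push_cast at h4 ⊢
        exact h4
      · exact h4
  apply funext_set (fun i => if i = s then Set.range (fun m : ℕ => ((m : F) + 1)) else Set.univ)
  · intro i
    split_ifs with hi
    · apply Set.infinite_range_of_injective
      intro a b hab
      have h3 : (a : F) = b := by
        beta_reduce at hab
        linear_combination hab
      exact_mod_cast h3
    · exact Set.infinite_univ
  · intro x hx
    have hxs := hx s (Set.mem_univ s)
    beta_reduce at hxs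
    rw [if_pos rfl] at hxs
    obtain ⟨m, hm⟩ := hxs
    beta_reduce at hm
    have h3 := h1 m (x - Pi.single s 1) (by
      rw [Pi.sub_apply, Pi.single_eq_same, ← hm]; ring)
    rw [sub_add_cancel] at h3
    rw [h3, map_zero]

/-- Simplicity. -/
theorem simple2 {N : Submodule F (MM F)} (hN : ∀ n, ∀ q ∈ N, EN n q ∈ N) (hne : N ≠ ⊥) :
    N = ⊤ := by
  classical
  have hX : ∀ s, ∀ q ∈ N, X s * q ∈ N := by
    intro s q hq
    have := isolate2 hN hq s 0
    rwa [Pi.single_zero, sh_zero, mul_zero, Int.cast_zero, zero_smul, add_zero] at this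
  have hex : ∃ d, ∃ q ∈ N, q ≠ 0 ∧ q ∈ LT (Fin 2) F d := by
    obtain ⟨q, hq, hq0⟩ := Submodule.exists_mem_ne_zero_of_ne_bot hne
    obtain ⟨d, hd⟩ := exists_LT q
    exact ⟨d, q, hq, hq0, hd⟩
  obtain ⟨q, hq, hq0, hqd⟩ := Nat.find_spec hex
  obtain ⟨d, hd⟩ : ∃ d, Nat.find hex = d + 1 := by
    apply Nat.exists_eq_succ_of_ne_zero
    intro h
    rw [h] at hqd
    exact hq0 (LT_zero hqd)
  rw [hd] at hqd
  have hD : ∀ s, DD s q = 0 := by
    intro s
    have hcw : ∃ b : ℕ, 0 < b ∧ 2 * (((cw s : ℤ) : F) + 1) = (b : F) := by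
      fin_cases s
      · exact ⟨2, by norm_num, by simp [cw]⟩
      · exact ⟨4, by norm_num, by simp [cw]; norm_num⟩
    obtain ⟨b, hb, hbe⟩ := hcw
    apply diff_zero s hb
    have hr : DD s (DD s q) = sh (Pi.single s 1) (DD s q) - DD s q := rfl
    have h1 : X s * DD s (DD s q) + C (b : F) * sh (Pi.single s 1) (DD s q) = 0 := by
      by_contra hcon
      have h2 : X s * DD s (DD s q) + C (b : F) * sh (Pi.single s 1) (DD s q) ∈ N := by
        have i2 := isolate2 hN hq s 2
        have i1 := isolate2 hN hq s 1
        have i0 := hX s q hq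
        have h3 := N.add_mem (N.sub_mem i2 (N.smul_mem (2 : F) i1)) i0
        have e2 : sh (Pi.single s 2) q = sh (Pi.single s 1) (sh (Pi.single s 1) q) := by
          rw [sh_add, ← Pi.single_add]; rfl
        have e : X s * DD s (DD s q) + C (b : F) * sh (Pi.single s 1) (DD s q) =
            sh (Pi.single s 2) (X s * q) + ((cw s * 2 : ℤ) : F) • sh (Pi.single s 2) q -
              (2 : F) • (sh (Pi.single s 1) (X s * q) +
                ((cw s * 1 : ℤ) : F) • sh (Pi.single s 1) q) + X s * q := by
          rw [map_mul (sh (Pi.single s 2)), map_mul (sh (Pi.single s 1)), sh_X, sh_X,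
            Pi.single_eq_same, Pi.single_eq_same, e2, ← hbe]
          unfold DD
          simp only [map_sub, smul_eq_C_mul]
          push_cast
          simp only [C_mul, C_add, C_1]
          have hC2 : (C (2 : F) : MM F) = 2 := by
            rw [show (2 : F) = 1 + 1 by norm_num, C_add, C_1]; norm_num
          rw [hC2]
          ring
        rw [e]
        exact h3
      have h3 : X s * DD s (DD s q) + C (b : F) * sh (Pi.single s 1) (DD s q) ∈
          LT (Fin 2) F d := by
        have h4 : DD s q ∈ LT (Fin 2) F d := sh_sub_mem _ hqd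
        apply Submodule.add_mem
        · cases d with
          | zero =>
            have : DD s q = 0 := LT_zero h4
            have h5 : DD s (0 : MM F) = 0 := by unfold DD; rw [map_zero, sub_zero]
            rw [this, h5, mul_zero]
            exact Submodule.zero_mem _
          | succ d => exact X_mul_mem s (sh_sub_mem _ h4)
        · rw [← smul_eq_C_mul]
          exact Submodule.smul_mem _ _ (sh_mem _ h4)
      exact Nat.find_min hex (m := d) (by omega) ⟨_, h2, hcon, h3⟩
    rw [hr] at h1
    linear_combination h1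
  have hc := const_of_DD hD
  have hc0 : eval 0 q ≠ 0 := by
    intro h
    apply hq0
    rw [hc, h, C_0]
  have h1 : (1 : MM F) ∈ N := by
    have h2 := N.smul_mem (eval 0 q)⁻¹ hq
    rw [hc, smul_eq_C_mul, ← C_mul, eval_C, inv_mul_cancel₀ hc0, C_1] at h2
    exact h2
  rw [eq_top_iff]
  intro f _
  induction f using MvPolynomial.induction_on with
  | C a =>
    have : (C a : MM F) = a • 1 := by rw [smul_eq_C_mul, mul_one]
    rw [this]
    exact N.smul_mem a h1
  | add p q hp hq => exact N.add_mem (hp trivial) (hq trivial)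
  | mul_X p i hp =>
    rw [mul_comm]
    exact hX i p (hp trivial)

end

end Pool.Agent.T2H43.WQ
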