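import Pool.Agent.T2H43.WQ.Star
import Pool.Agent.T2H43.WQ.Simp

/-!
The algebra of differential operators on the two-dimensional torus by generators and relations, and
its faithful action on the two-point module.
-/

set_option autoImplicit false
set_option linter.unusedSectionVars false

namespace Pool.Agent.T2H43.WQ

open MvPolynomial Pool.Agent.R693.Q

/-- The relations of differential operators on the two-dimensional torus. -/
structure TorS (F : Type) [Field F] (A : Type) [Ring A] [Algebra F A] where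
  /-- the coordinates -/
  t : Fin 2 → Aˣ
  /-- the derivatives -/
  d : Fin 2 → A
  d_t : ∀ i j, d i * t j = t j * d i + if i = j then 1 else 0
  t_t : ∀ i j, t i * t j = t j * t i
  d_d : ∀ i j, d i * d j = d j * d i

namespace TorS

section alg
variable {F : Type} [Field F] {A : Type} [Ring A] [Algebra F A] (T : TorS F A)

/-- The powers of `t_i`. -/
def tp (i : Fin 2) (n : ℤ) : A := ((T.t i ^ n : Aˣ) : A)

lemma tp_one (i : Fin 2) : T.tp i 1 = T.t i := by
  unfold tp; rw [zpow_one]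

lemma tp_neg_one (i : Fin 2) : T.tp i (-1) = ((T.t i)⁻¹ : Aˣ) := by
  unfold tp; rw [zpow_neg_one]

lemma tp_zero (i : Fin 2) : T.tp i 0 = 1 := by
  unfold tp; rw [zpow_zero, Units.val_one]

lemma tp_add (i : Fin 2) (m n : ℤ) : T.tp i (m + n) = T.tp i m * T.tp i n := by
  unfold tp; rw [zpow_add, Units.val_mul]

lemma tp_comm (i j : Fin 2) (m n : ℤ) : T.tp i m * T.tp j n = T.tp j n * T.tp i m := by
  unfold tp
  have h : Commute (T.t i) (T.t j) := T.t_t i j
  rw [← Units.val_mul, ← Units.val_mul, (h.zpow_zpow m n).eq]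

/-- The element `- t_i ∂_i`. -/
def zu (i : Fin 2) : A := -(T.t i * T.d i)

lemma d_eq (i : Fin 2) : T.d i = -(T.tp i (-1) * T.zu i) := by
  unfold zu
  rw [tp_neg_one, mul_neg, neg_neg, ← mul_assoc, Units.inv_mul, one_mul]

lemma zu_t (i j : Fin 2) : T.zu i * T.tp j 1 = T.tp j 1 * (T.zu i - if i = j then 1 else 0) := by
  unfold zu
  rw [tp_one, neg_mul, mul_assoc, T.d_t, mul_add, ← mul_assoc]
  have h1 : ((T.t i : Aˣ) : A) * T.t j = T.t j * T.t i := by
    rw [← Units.val_mul, T.t_t, Units.val_mul]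
  rw [h1, mul_assoc]
  split_ifs with h
  · subst h
    noncomm_ring
  · noncomm_ring

lemma zu_tp (i j : Fin 2) (n : ℤ) : T.zu i * T.tp j n =
    T.tp j n * (T.zu i - if i = j then ((n : ℤ) : A) else 0) := by
  have hp : ∀ n : ℕ, T.zu i * T.tp j n =
      T.tp j n * (T.zu i - if i = j then (((n : ℤ) : ℤ) : A) else 0) := by
    intro n
    induction n with
    | zero => rw [Nat.cast_zero, tp_zero, mul_one, one_mul, Int.cast_zero, ite_self, sub_zero]
    | succ n ih =>
      rw [Nat.cast_succ, add_comm (n : ℤ) 1, tp_add, ← mul_assoc, zu_t, mul_assoc, sub_mul, ih,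
        mul_assoc]
      congr 1
      split_ifs with h
      · push_cast
        rw [one_mul, mul_sub, mul_sub, mul_add, mul_one]
        abel
      · rw [zero_mul, sub_zero]
  rcases le_total 0 n with hn | hn
  · have := hp n.toNat
    rwa [Int.toNat_of_nonneg hn] at this
  · have h1 := hp (-n).toNat
    rw [Int.toNat_of_nonneg (by omega)] at h1
    have h2 : T.tp j n * (T.zu i * T.tp j (-n)) * T.tp j n =
        T.tp j n * (T.tp j (-n) * (T.zu i - if i = j then ((-n : ℤ) : A) else 0)) * T.tp j n := by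
      rw [h1]
    have h3 : T.tp j n * T.tp j (-n) = 1 := by rw [← tp_add, add_neg_cancel, tp_zero]
    have h4 : T.tp j (-n) * T.tp j n = 1 := by rw [← tp_add, neg_add_cancel, tp_zero]
    rw [mul_assoc, mul_assoc, h4, mul_one, ← mul_assoc (T.tp j n) (T.tp j (-n)), h3, one_mul,
      sub_mul] at h2
    rw [mul_sub, h2]
    split_ifs with h
    · have h5 : T.tp j n * (n : A) = (n : A) * T.tp j n :=
        (Int.cast_commute n (T.tp j n)).eq.symm
      rw [h5, Int.cast_neg, neg_mul, sub_neg_eq_add, add_sub_cancel_right]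
    · rw [zero_mul, mul_zero, sub_zero, sub_zero]

lemma zu_comm (i j : Fin 2) : T.zu i * T.zu j = T.zu j * T.zu i := by
  by_cases h : i = j
  · rw [h]
  · have h1 : T.zu i * T.t j = T.t j * T.zu i := by
      have := T.zu_t i j
      rwa [if_neg h, sub_zero, tp_one] at this
    have h2 : T.zu i * T.d j = T.d j * T.zu i := by
      unfold zu
      have h3 : T.d j * T.t i = T.t i * T.d j := by
        have := T.d_t j i
        rwa [if_neg (Ne.symm h), add_zero] at this
      rw [neg_mul, mul_neg, mul_assoc, T.d_d i j, ← mul_assoc, ← h3, mul_assoc]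
    have h4 : T.zu j = -(T.t j * T.d j) := rfl
    rw [h4, mul_neg, neg_mul, ← mul_assoc, h1, mul_assoc, h2, mul_assoc]

/-- The polynomials in `- t_i ∂_i`. -/
noncomputable def pz : MM F →ₗ[F] A :=
  (MvPolynomial.basisMonomials (Fin 2) F).constr F fun m => T.zu 0 ^ (m 0) * T.zu 1 ^ (m 1)

lemma pz_monomial (m : Fin 2 →₀ ℕ) : T.pz (monomial m (1 : F)) = T.zu 0 ^ (m 0) * T.zu 1 ^ (m 1) := by
  have h : (monomial m (1 : F) : MM F) = MvPolynomial.basisMonomials (Fin 2) F m := by
    rw [MvPolynomial.coe_basisMonomials]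
  rw [h]
  unfold pz
  rw [Module.Basis.constr_basis]

lemma zu_pz (i : Fin 2) (p : MM F) : T.zu i * T.pz p = T.pz (X i * p) := by
  induction p using MvPolynomial.induction_on' with
  | monomial m c =>
    have h1 : (monomial m c : MM F) = c • monomial m 1 := by
      rw [smul_monomial, smul_eq_mul, mul_one]
    rw [h1, map_smul, mul_smul_comm, mul_smul_comm, map_smul, pz_monomial]
    congr 1
    have h2 : (X i * monomial m (1 : F) : MM F) = monomial (m + Finsupp.single i 1) 1 := by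
      rw [X, monomial_mul, one_mul, add_comm]
    rw [h2, pz_monomial]
    fin_cases i
    · simp only [Fin.zero_eta, Fin.isValue, Finsupp.add_apply, Finsupp.single_apply, if_true,
        if_neg (show (0 : Fin 2) ≠ 1 by decide), add_zero]
      rw [← mul_assoc, ← pow_succ']
    · simp only [Fin.mk_one, Fin.isValue, Finsupp.add_apply, Finsupp.single_apply, if_true,
        if_neg (show (1 : Fin 2) ≠ 0 by decide), add_zero]
      have h3 : T.zu 1 * T.zu 0 ^ (m 0) = T.zu 0 ^ (m 0) * T.zu 1 :=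
        (Commute.pow_right (T.zu_comm 1 0) (m 0)).eq
      rw [← mul_assoc, h3, mul_assoc, ← pow_succ']
  | add p q hp hq => rw [map_add, mul_add, hp, hq, mul_add, map_add]

/-- The normal form. -/
noncomputable def nf (x : (ℤ × ℤ) →₀ MM F) : A := x.sum fun a p => T.tp 0 a.1 * T.tp 1 a.2 * T.pz p

lemma nf_zero : T.nf (0 : (ℤ × ℤ) →₀ MM F) = 0 := by
  unfold nf
  rw [Finsupp.sum_zero_index]

lemma nf_add (x y : (ℤ × ℤ) →₀ MM F) : T.nf (x + y) = T.nf x + T.nf y := by
  unfold nf
  rw [Finsupp.sum_add_index']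
  · intro a; rw [map_zero, mul_zero]
  · intro a p q; rw [map_add, mul_add]

lemma nf_neg (x : (ℤ × ℤ) →₀ MM F) : T.nf (-x) = -T.nf x := by
  rw [eq_neg_iff_add_eq_zero, ← nf_add, neg_add_cancel, nf_zero]

lemma nf_single (a : ℤ × ℤ) (p : MM F) :
    T.nf (Finsupp.single a p) = T.tp 0 a.1 * T.tp 1 a.2 * T.pz p := by
  unfold nf
  rw [Finsupp.sum_single_index]
  rw [map_zero, mul_zero]

lemma nf_surj_aux (x : A) (h : ∀ (a : ℤ × ℤ) (p : MM F),
    ∃ y, x * (T.tp 0 a.1 * T.tp 1 a.2 * T.pz p) = T.nf y) (z : (ℤ × ℤ) →₀ MM F) :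
    ∃ y, x * T.nf z = T.nf y := by
  induction z using Finsupp.induction_linear with
  | zero => exact ⟨0, by rw [nf_zero, mul_zero]⟩
  | add z z' hz hz' =>
    obtain ⟨y, hy⟩ := hz
    obtain ⟨y', hy'⟩ := hz'
    exact ⟨y + y', by rw [nf_add, nf_add, mul_add, hy, hy']⟩
  | single a p => rw [nf_single]; exact h a p

lemma nf_tp (i : Fin 2) (n : ℤ) (z : (ℤ × ℤ) →₀ MM F) : ∃ y, T.tp i n * T.nf z = T.nf y := by
  revert z
  apply nf_surj_aux
  intro a p
  fin_cases i
  · refine ⟨Finsupp.single (n + a.1, a.2) p, ?_⟩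
    change T.tp 0 n * _ = _
    rw [nf_single, ← mul_assoc, ← mul_assoc, tp_add]
  · refine ⟨Finsupp.single (a.1, n + a.2) p, ?_⟩
    change T.tp 1 n * _ = _
    rw [nf_single, ← mul_assoc, ← mul_assoc, tp_add, T.tp_comm 1 0, mul_assoc (T.tp 0 a.1)]

lemma nf_zu (i : Fin 2) (z : (ℤ × ℤ) →₀ MM F) : ∃ y, T.zu i * T.nf z = T.nf y := by
  revert z
  apply nf_surj_aux
  intro a p
  fin_cases i
  · refine ⟨Finsupp.single a (X 0 * p - (a.1 : ℤ) • p), ?_⟩
    change T.zu 0 * _ = _
    rw [nf_single, ← mul_assoc, ← mul_assoc, zu_tp, if_pos rfl, map_sub, ← zu_pz, map_zsmul,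
      zsmul_eq_mul, ← sub_mul, mul_assoc (T.tp 0 a.1) _ (T.tp 1 a.2), sub_mul, zu_tp,
      if_neg (by decide), sub_zero, (Int.cast_commute a.1 (T.tp 1 a.2)).eq, ← mul_sub]
    simp only [mul_assoc]
  · refine ⟨Finsupp.single a (X 1 * p - (a.2 : ℤ) • p), ?_⟩
    change T.zu 1 * _ = _
    rw [nf_single, ← mul_assoc, ← mul_assoc, zu_tp, if_neg (by decide), sub_zero,
      mul_assoc (T.tp 0 a.1), zu_tp, if_pos rfl, map_sub, ← zu_pz, map_zsmul, zsmul_eq_mul,
      ← sub_mul]
    simp only [mul_assoc]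

lemma nf_surj (hgen : ∀ S : Subalgebra F A, (∀ i, (T.t i : A) ∈ S) →
    (∀ i, (((T.t i)⁻¹ : Aˣ) : A) ∈ S) → (∀ i, T.d i ∈ S) → S = ⊤) (x : A) : ∃ y, x = T.nf y := by
  have h0 : (1 : A) = T.nf (Finsupp.single (0, 0) 1) := by
    have h1 : (1 : MM F) = monomial 0 1 := rfl
    rw [nf_single, tp_zero, tp_zero, one_mul, one_mul, h1, pz_monomial, Finsupp.zero_apply,
      Finsupp.zero_apply, pow_zero, pow_zero, one_mul]
  let S : Subalgebra F A :=
    { carrier := {x | ∀ z : (ℤ × ℤ) →₀ MM F, ∃ y, x * T.nf z = T.nf y}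
      mul_mem' := by
        intro a b ha hb z
        obtain ⟨y, hy⟩ := hb z
        obtain ⟨y', hy'⟩ := ha y
        exact ⟨y', by rw [mul_assoc, hy, hy']⟩
      add_mem' := by
        intro a b ha hb z
        obtain ⟨y, hy⟩ := hb z
        obtain ⟨y', hy'⟩ := ha z
        exact ⟨y' + y, by rw [add_mul, hy, hy', nf_add]⟩
      algebraMap_mem' := by
        intro r z
        refine ⟨r • z, ?_⟩
        rw [← Algebra.smul_def]
        unfold nf
        rw [Finsupp.sum_smul_index' (by intro a; rw [map_zero, mul_zero]), Finsupp.smul_sum]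
        refine Finsupp.sum_congr fun a _ => ?_
        rw [map_smul, mul_smul_comm] }
  have hS : S = ⊤ := by
    apply hgen
    · intro i z
      have := T.nf_tp i 1 z
      rwa [tp_one] at this
    · intro i z
      have := T.nf_tp i (-1) z
      rwa [tp_neg_one] at this
    · intro i z
      obtain ⟨y, hy⟩ := T.nf_zu i z
      obtain ⟨y', hy'⟩ := T.nf_tp i (-1) y
      exact ⟨-y', by rw [d_eq, neg_mul, mul_assoc, hy, hy', nf_neg]⟩
  have hx : x ∈ S := by rw [hS]; trivial
  obtain ⟨y, hy⟩ := hx (Finsupp.single (0, 0) 1)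
  rw [← h0, mul_one] at hy
  exact ⟨y, hy⟩

section rep
variable [CharZero F] (κ : A →ₐ[F] Module.End F (MM F)) (h1 : ∀ i, κ (T.t i) = yy i 1)
  (h2 : ∀ i, κ (((T.t i)⁻¹ : Aˣ) : A) = yy i (-1)) (h3 : ∀ i, κ (T.d i) = -(yy i (-1) * zz i))

include h1 h2 in
lemma κ_tp (i : Fin 2) (n : ℤ) : κ (T.tp i n) = yy i n := by
  have hp : ∀ n : ℕ, κ (T.tp i n) = yy i n := by
    intro n
    induction n with
    | zero => rw [Nat.cast_zero, tp_zero, map_one, yy_zero]
    | succ n ih => rw [Nat.cast_succ, tp_add, map_mul, ih, tp_one, h1, ← yy_mul]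
  have hm : ∀ n : ℕ, κ (T.tp i (-n)) = yy i (-n) := by
    intro n
    induction n with
    | zero => rw [Nat.cast_zero, neg_zero, tp_zero, map_one, yy_zero]
    | succ n ih => rw [Nat.cast_succ, neg_add, tp_add, map_mul, ih, tp_neg_one, h2, ← yy_mul]
  rcases le_total 0 n with hn | hn
  · have := hp n.toNat
    rwa [Int.toNat_of_nonneg hn] at this
  · have := hm (-n).toNat
    rwa [Int.toNat_of_nonneg (by omega), neg_neg] at this

include h1 h3 in
lemma κ_zu (i : Fin 2) : κ (T.zu i) = zz i := by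
  unfold zu
  rw [map_neg, map_mul, h1, h3]
  apply LinearMap.ext
  intro q
  change -(yy i 1 (-(yy i (-1) (zz i q)))) = zz i q
  rw [map_neg, neg_neg, ← Module.End.mul_apply, yy_mul, add_neg_cancel, yy_zero,
    Module.End.one_apply]

include h1 h3 in
lemma κ_pz (p q : MM F) : κ (T.pz p) q = p * q := by
  induction p using MvPolynomial.induction_on generalizing q with
  | C a =>
    have h4 : (C a : MM F) = a • monomial 0 1 := by
      rw [smul_monomial, smul_eq_mul, mul_one]; rfl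
    rw [h4, map_smul, map_smul, pz_monomial, Finsupp.zero_apply, Finsupp.zero_apply, pow_zero,
      pow_zero, one_mul, map_one, LinearMap.smul_apply, Module.End.one_apply, smul_mul_assoc]
    congr 1
    rw [show (monomial 0 1 : MM F) = 1 from rfl, one_mul]
  | add p p' hp hp' => rw [map_add, map_add, LinearMap.add_apply, hp, hp', add_mul]
  | mul_X p i hp =>
    rw [mul_comm p, ← zu_pz, map_mul, Module.End.mul_apply, hp, T.κ_zu κ h1 h3, zz_apply, mul_assoc]

include h1 h2 h3 in
lemma κ_nf (x : (ℤ × ℤ) →₀ MM F) (q : MM F) : κ (T.nf x) q = ∑ a ∈ x.support,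
    (-1 : F) ^ a.2 • sh (Pi.single 1 a.2) (sh (Pi.single 0 a.1) (x a * q)) := by
  unfold nf Finsupp.sum
  rw [map_sum, LinearMap.sum_apply]
  refine Finset.sum_congr rfl fun a _ => ?_
  have l0 : lam F 0 = 1 := if_pos rfl
  have l1 : lam F 1 = -1 := if_neg (by decide)
  rw [map_mul, map_mul, T.κ_tp κ h1 h2, T.κ_tp κ h1 h2, yy_comm, Module.End.mul_apply,
    T.κ_pz κ h1 h3, Module.End.mul_apply, yy_apply, yy_apply, l0, l1, one_zpow, one_smul]

include h1 h2 h3 in
theorem κ_inj (hgen : ∀ S : Subalgebra F A, (∀ i, (T.t i : A) ∈ S) →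
    (∀ i, (((T.t i)⁻¹ : Aˣ) : A) ∈ S) → (∀ i, T.d i ∈ S) → S = ⊤) {x : A} (h : κ x = 0) :
    x = 0 := by
  obtain ⟨y, rfl⟩ := T.nf_surj hgen x
  have h1 : y = 0 := by
    apply Finsupp.ext
    intro a
    rw [Finsupp.zero_apply]
    by_contra ha
    have hmem : a ∈ y.support := Finsupp.mem_support_iff.mpr ha
    apply ha
    apply funext_set (fun _ => Set.range (fun m : ℤ => (m : F)))
    · intro i
      exact Set.infinite_range_of_injective Int.cast_injective
    · intro v hv
      choose ν hν using fun i => hv i (Set.mem_univ i)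
      rw [map_zero]
      have hli2 : LinearIndependent F
          (fun p : ℤ × ℤ => (evp F ((ν 0 - a.1) + p.1, (ν 1 - a.2) + p.2) : MM F → F)) := by
        refine (evp_li (F := F)).comp (fun p : ℤ × ℤ => ((ν 0 - a.1) + p.1, (ν 1 - a.2) + p.2)) ?_
        intro p p' h
        simp only [Prod.mk.injEq] at h
        exact Prod.ext (by omega) (by omega)
      rw [linearIndependent_iff'] at hli2
      have h2 := hli2 y.support (fun p => (-1 : F) ^ p.2 *
        evp F ((ν 0 - a.1) + p.1, (ν 1 - a.2) + p.2) (y p)) (by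
          funext q
          rw [Finset.sum_apply, Pi.zero_apply]
          have h3 := T.κ_nf κ h1 h2 h3 y q
          rw [h, LinearMap.zero_apply] at h3
          have h4 := congrArg (evp F (ν 0 - a.1, ν 1 - a.2)) h3
          rw [map_zero, map_sum] at h4
          rw [h4]
          refine Finset.sum_congr rfl fun p _ => ?_
          rw [Pi.smul_apply, smul_eq_mul]
          have e1 : evp F (ν 0 - a.1, ν 1 - a.2) (C ((-1 : F) ^ p.2)) = (-1 : F) ^ p.2 := by
            unfold evp; rw [eval_C]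
          have e2 : evp F (ν 0 - a.1, ν 1 - a.2) ((-1 : F) ^ p.2 • sh (Pi.single 1 p.2)
              (sh (Pi.single 0 p.1) (y p * q))) = (-1 : F) ^ p.2 *
              evp F ((ν 0 - a.1) + p.1, (ν 1 - a.2) + p.2) (y p * q) := by
            rw [smul_eq_C_mul, map_mul (evp F _) (C _), e1, evp_sh]
          rw [e2, map_mul (evp F _) (y p)]
          ring) a hmem
      rcases mul_eq_zero.mp h2 with h3 | h3
      · exact absurd h3 (zpow_ne_zero _ (neg_ne_zero.mpr one_ne_zero))
      · rw [sub_add_cancel, sub_add_cancel] at h3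
        have h4 : (fun s : Fin 2 => if s = 0 then ((ν 0 : ℤ) : F) else ((ν 1 : ℤ) : F)) = v := by
          funext s
          fin_cases s
          · exact hν 0
          · exact hν 1
        unfold evp at h3
        dsimp only at h3
        rwa [h4] at h3
  rw [h1, nf_zero]

end rep

end alg

end TorS

/-- The generators `t_i`, `t_i⁻¹`, `∂_i`, for `i = 0, 1`. -/
inductive Gen2 : Type
  | t (i : Fin 2) : Gen2
  | tinv (i : Fin 2) : Gen2
  | d (i : Fin 2) : Gen2

section defs
variable (F : Type) [Field F]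

/-- A generator as an element of the free algebra. -/
abbrev g2 (x : Gen2) : FreeAlgebra F Gen2 := FreeAlgebra.ι F x

/-- The defining relations of `F[t_0, t_0⁻¹, ∂_0] ⊗ F[t_1, t_1⁻¹, ∂_1]`: `t_i t_i⁻¹ = t_i⁻¹ t_i = 1`,
`[∂_i, t_j] = δ_ij`, `[t_i, t_j] = 0` and `[∂_i, ∂_j] = 0`. -/
inductive Rel2 : FreeAlgebra F Gen2 → FreeAlgebra F Gen2 → Prop
  | t_tinv (i : Fin 2) : Rel2 (g2 F (Gen2.t i) * g2 F (Gen2.tinv i)) 1
  | tinv_t (i : Fin 2) : Rel2 (g2 F (Gen2.tinv i) * g2 F (Gen2.t i)) 1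
  | d_t (i j : Fin 2) : Rel2 (g2 F (Gen2.d i) * g2 F (Gen2.t j))
      (g2 F (Gen2.t j) * g2 F (Gen2.d i) + if i = j then 1 else 0)
  | t_t (i j : Fin 2) : Rel2 (g2 F (Gen2.t i) * g2 F (Gen2.t j)) (g2 F (Gen2.t j) * g2 F (Gen2.t i))
  | d_d (i j : Fin 2) : Rel2 (g2 F (Gen2.d i) * g2 F (Gen2.d j)) (g2 F (Gen2.d j) * g2 F (Gen2.d i))

/-- The algebra `F[t_0, t_0⁻¹, ∂_0] ⊗ F[t_1, t_1⁻¹, ∂_1]`, by generators and relations. -/
abbrev L2 : Type := RingQuot (Rel2 F)

end defs

section alg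
variable {F : Type} [Field F]

/-- The image of a generator. -/
noncomputable def γ2 (x : Gen2) : L2 F := RingQuot.mkAlgHom F (Rel2 F) (g2 F x)

lemma γ2_t_tinv (i : Fin 2) : γ2 (F := F) (Gen2.t i) * γ2 (Gen2.tinv i) = 1 := by
  unfold γ2; rw [← map_mul, RingQuot.mkAlgHom_rel F (Rel2.t_tinv i), map_one]

lemma γ2_tinv_t (i : Fin 2) : γ2 (F := F) (Gen2.tinv i) * γ2 (Gen2.t i) = 1 := by
  unfold γ2; rw [← map_mul, RingQuot.mkAlgHom_rel F (Rel2.tinv_t i), map_one]

lemma γ2_d_t (i j : Fin 2) : γ2 (F := F) (Gen2.d i) * γ2 (Gen2.t j) =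
    γ2 (Gen2.t j) * γ2 (Gen2.d i) + if i = j then 1 else 0 := by
  unfold γ2
  rw [← map_mul, RingQuot.mkAlgHom_rel F (Rel2.d_t i j), map_add, map_mul]
  split_ifs
  · rw [map_one]
  · rw [map_zero]

lemma γ2_t_t (i j : Fin 2) : γ2 (F := F) (Gen2.t i) * γ2 (Gen2.t j) =
    γ2 (Gen2.t j) * γ2 (Gen2.t i) := by
  unfold γ2; rw [← map_mul, RingQuot.mkAlgHom_rel F (Rel2.t_t i j), map_mul]

lemma γ2_d_d (i j : Fin 2) : γ2 (F := F) (Gen2.d i) * γ2 (Gen2.d j) =
    γ2 (Gen2.d j) * γ2 (Gen2.d i) := by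
  unfold γ2; rw [← map_mul, RingQuot.mkAlgHom_rel F (Rel2.d_d i j), map_mul]

variable (F) in
/-- The structure on `L2`. -/
noncomputable def TL : TorS F (L2 F) where
  t i := ⟨γ2 (Gen2.t i), γ2 (Gen2.tinv i), γ2_t_tinv i, γ2_tinv_t i⟩
  d i := γ2 (Gen2.d i)
  d_t i j := γ2_d_t i j
  t_t i j := Units.ext (γ2_t_t i j)
  d_d i j := γ2_d_d i j

lemma TL_gen (S : Subalgebra F (L2 F)) (h1 : ∀ i, ((TL F).t i : L2 F) ∈ S)
    (h2 : ∀ i, ((((TL F).t i)⁻¹ : (L2 F)ˣ) : L2 F) ∈ S) (h3 : ∀ i, (TL F).d i ∈ S) : S = ⊤ := by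
  rw [eq_top_iff]
  intro x _
  obtain ⟨w, rfl⟩ := RingQuot.mkAlgHom_surjective F (Rel2 F) x
  induction w using FreeAlgebra.induction with
  | grade0 r => rw [AlgHom.commutes]; exact S.algebraMap_mem r
  | grade1 x =>
    cases x with
    | t i => exact h1 i
    | tinv i => exact h2 i
    | d i => exact h3 i
  | mul a b iha ihb => rw [map_mul]; exact S.mul_mem (iha trivial) (ihb trivial)
  | add a b iha ihb => rw [map_add]; exact S.add_mem (iha trivial) (ihb trivial)

/-- The action on the two-point module. -/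
noncomputable def op2 [CharZero F] : Gen2 → Module.End F (MM F)
  | Gen2.t i => yy i 1
  | Gen2.tinv i => yy i (-1)
  | Gen2.d i => -(yy i (-1) * zz i)

lemma comm_yz [CharZero F] (i j : Fin 2) (n : ℤ) (q : MM F) : zz (F := F) i (yy j n q) =
    yy j n (zz i q) - if i = j then (n : F) • yy j n q else 0 := by
  split_ifs with h
  · subst h
    have := LinearMap.congr_fun (zz_yy (F := F) i n) q
    simpa only [Module.End.mul_apply, LinearMap.sub_apply, LinearMap.smul_apply] using this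
  · rw [sub_zero]
    have := LinearMap.congr_fun (zz_yy_ne (F := F) h n) q
    simpa only [Module.End.mul_apply] using this

lemma op2_d_t [CharZero F] (i j : Fin 2) : op2 (F := F) (Gen2.d i) * op2 (Gen2.t j) =
    op2 (Gen2.t j) * op2 (Gen2.d i) + if i = j then 1 else 0 := by
  apply LinearMap.ext
  intro q
  simp only [op2, Module.End.mul_apply, LinearMap.neg_apply, LinearMap.add_apply]
  rw [comm_yz, map_sub, map_neg]
  have h2 : yy (F := F) i (-1) (yy j 1 (zz i q)) = yy j 1 (yy i (-1) (zz i q)) := by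
    rw [← Module.End.mul_apply, yy_comm, Module.End.mul_apply]
  rw [h2]
  split_ifs with h
  · subst h
    rw [Int.cast_one, one_smul, ← Module.End.mul_apply (yy i (-1)) (yy i 1), yy_mul,
      neg_add_cancel, yy_zero, Module.End.one_apply]
    abel
  · rw [map_zero, sub_zero, LinearMap.zero_apply, add_zero]

lemma op2_d_d [CharZero F] (i j : Fin 2) : op2 (F := F) (Gen2.d i) * op2 (Gen2.d j) =
    op2 (Gen2.d j) * op2 (Gen2.d i) := by
  by_cases h : i = j
  · rw [h]
  · apply LinearMap.ext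
    intro q
    have h1 : ∀ (a b : Fin 2), a ≠ b → ∀ q : MM F, zz a (yy b (-1) q) = yy b (-1) (zz a q) := by
      intro a b hab q
      rw [comm_yz, if_neg hab, sub_zero]
    have h2 : zz (F := F) i (zz j q) = zz j (zz i q) := by
      have := LinearMap.congr_fun (zz_zz (F := F) i j) q
      simpa only [Module.End.mul_apply] using this
    have h3 : ∀ q : MM F, yy i (-1) (yy j (-1) q) = yy j (-1) (yy i (-1) q) := by
      intro q
      have := LinearMap.congr_fun (yy_comm (F := F) i j (-1) (-1)) q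
      simpa only [Module.End.mul_apply] using this
    simp only [op2, Module.End.mul_apply, LinearMap.neg_apply, map_neg, neg_neg]
    rw [h1 i j h, h1 j i (Ne.symm h), h2, h3]

/-- The representation. -/
noncomputable def κ [CharZero F] : L2 F →ₐ[F] Module.End F (MM F) :=
  RingQuot.liftAlgHom F ⟨FreeAlgebra.lift F op2, by
    intro x y h
    induction h with
    | t_tinv i =>
      simp only [map_mul, FreeAlgebra.lift_ι_apply, map_one, op2]
      rw [yy_mul, add_neg_cancel, yy_zero]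
    | tinv_t i =>
      simp only [map_mul, FreeAlgebra.lift_ι_apply, map_one, op2]
      rw [yy_mul, neg_add_cancel, yy_zero]
    | d_t i j =>
      rw [map_mul, map_add, map_mul, FreeAlgebra.lift_ι_apply, FreeAlgebra.lift_ι_apply, op2_d_t]
      split_ifs
      · rw [map_one]
      · rw [map_zero]
    | t_t i j =>
      rw [map_mul, map_mul, FreeAlgebra.lift_ι_apply, FreeAlgebra.lift_ι_apply]
      exact yy_comm i j 1 1
    | d_d i j =>
      rw [map_mul, map_mul, FreeAlgebra.lift_ι_apply, FreeAlgebra.lift_ι_apply, op2_d_d]⟩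

lemma κ_γ2 [CharZero F] (x : Gen2) : κ (F := F) (γ2 x) = op2 x := by
  unfold κ γ2
  rw [RingQuot.liftAlgHom_mkAlgHom_apply, FreeAlgebra.lift_ι_apply]

lemma κ_inj [CharZero F] {x : L2 F} (h : κ x = 0) : x = 0 :=
  (TL F).κ_inj κ (fun i => κ_γ2 (Gen2.t i)) (fun i => κ_γ2 (Gen2.tinv i))
    (fun i => κ_γ2 (Gen2.d i)) TL_gen h

/-- The images of the basis elements. -/
noncomputable def eps (F : Type) [Field F] (n : ℤ) : L2 F :=
  (-1 : F) • (((TL F).tp 0 n * (TL F).zu 0 + ((cw 0 * n : ℤ) : F) • (TL F).tp 0 n) +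
    ((TL F).tp 1 n * (TL F).zu 1 + ((cw 1 * n : ℤ) : F) • (TL F).tp 1 n))

lemma κ_eps [CharZero F] (n : ℤ) : κ (eps F n) = EN n := by
  have h1 := (TL F).κ_tp κ (fun i => κ_γ2 (Gen2.t i)) (fun i => κ_γ2 (Gen2.tinv i))
  have h2 := (TL F).κ_zu κ (fun i => κ_γ2 (Gen2.t i)) (fun i => κ_γ2 (Gen2.d i))
  unfold eps EN xx
  rw [map_smul, map_add, map_add, map_add, map_smul, map_smul, map_mul, map_mul, h1, h1, h2, h2]
  apply LinearMap.ext
  intro q
  rw [LinearMap.smul_apply, LinearMap.neg_apply, neg_one_smul]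

end alg

end Pool.Agent.T2H43.WQ
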