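import Pool.Agent.T2H43.WQ.Contra
import Pool.Agent.T2H43.WQ.Tor

/-!
Assembly: the annihilator of the two-point module.
-/

set_option autoImplicit false
set_option linter.unusedSectionVars false

namespace Pool.Agent.T2H43.WQ

open MvPolynomial

section simple
variable {F : Type} [Field F] [CharZero F] {A : Type} [Ring A] [Algebra F A]

/-- The two-point module, for a homomorphism. -/
def S2 (_ : A →ₐ[F] Module.End F (MM F)) : Type := MM F

variable (Φ : A →ₐ[F] Module.End F (MM F))

noncomputable instance : AddCommGroup (S2 Φ) := inferInstanceAs (AddCommGroup (MM F))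

noncomputable instance : Module A (S2 Φ) := Module.compHom (MM F) Φ.toRingHom

lemma S2_smul (a : A) (q : S2 Φ) : a • q = (Φ a (q : MM F) : _) := rfl

lemma S2_simple {e : ℤ → A} (hΦ : ∀ m, Φ (e m) = EN m) : IsSimpleModule A (S2 Φ) := by
  have hnt : Nontrivial (S2 Φ) := inferInstanceAs (Nontrivial (MM F))
  rw [isSimpleModule_iff]
  refine { eq_bot_or_eq_top := fun N => ?_ }
  let N' : Submodule F (MM F) :=
    { carrier := (N : Set (S2 Φ))
      add_mem' := fun ha hb => N.add_mem ha hb
      zero_mem' := N.zero_mem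
      smul_mem' := by
        intro c q hq
        have h2 : Φ (algebraMap F A c) q = c • q := by
          rw [AlgHom.commutes, Module.algebraMap_end_apply]
        have h1 : Φ (algebraMap F A c) q ∈ (N : Set (S2 Φ)) :=
          N.smul_mem (algebraMap F A c) hq
        rw [h2] at h1
        exact h1 }
  have hN' : ∀ n, ∀ q ∈ N', EN n q ∈ N' := by
    intro n q hq
    rw [← hΦ]
    exact N.smul_mem (e n) hq
  by_cases h : N' = ⊥
  · left
    rw [eq_bot_iff]
    intro q hq
    have h1 : (q : MM F) ∈ N' := hq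
    rw [h] at h1
    exact h1
  · right
    have h2 := simple2 hN' h
    rw [eq_top_iff]
    intro q _
    have h1 : (q : MM F) ∈ N' := by rw [h2]; trivial
    exact h1

end simple

section comm
variable {F : Type} [Field F] [CharZero F]

lemma comm_of_map {B : Type} [Ring B] [Algebra F B] (k : B →ₐ[F] Module.End F (MM F))
    (hk : ∀ x, k x = 0 → x = 0) (x y z : B) (h : k x * k y - k y * k x = k z) :
    x * y - y * x = z := by
  rw [← sub_eq_zero]
  apply hk
  rw [map_sub, map_sub, map_mul, map_mul, h, sub_self]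

lemma eps_comm (m n : ℤ) :
    eps F m * eps F n - eps F n * eps F m = ((n - m : ℤ) : F) • eps F (m + n) := by
  apply comm_of_map (κ (F := F)) (fun x hx => κ_inj hx)
  rw [map_smul, κ_eps, κ_eps, κ_eps, EN_comm]

end comm

section uea
attribute [local instance 100] LieRing.ofAssociativeRing

variable {F : Type} [Field F] {L : Type} [LieRing L] [LieAlgebra F L]

lemma exists_hom_basis {ι : Type} (c : Module.Basis ι F L) (B : Type) [Ring B] [Algebra F B]
    (y : ι → B) (hy : ∀ i j, c.constr F y ⁅c i, c j⁆ = y i * y j - y j * y i) :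
    ∃ ψ : UniversalEnvelopingAlgebra F L →ₐ[F] B,
      ∀ i, ψ (UniversalEnvelopingAlgebra.ι F (c i)) = y i := by
  set f : L →ₗ[F] B := c.constr F y with hf
  have hfc : ∀ n, f (c n) = y n := fun n => c.constr_basis F y n
  have h1 : ∀ x z : L, f ⁅x, z⁆ = f x * f z - f z * f x := by
    intro x z
    have hx : x ∈ Submodule.span F (Set.range c) := by rw [c.span_eq]; trivial
    have hz : z ∈ Submodule.span F (Set.range c) := by rw [c.span_eq]; trivial
    induction hx using Submodule.span_induction with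
    | mem x hx =>
      obtain ⟨m, rfl⟩ := hx
      induction hz using Submodule.span_induction with
      | mem z hz =>
        obtain ⟨n, rfl⟩ := hz
        rw [hy, hfc, hfc]
      | zero => rw [lie_zero, map_zero, mul_zero, zero_mul, sub_zero]
      | add y z _ _ hy hz =>
        rw [lie_add, map_add, hy, hz, map_add, mul_add, add_mul]
        abel
      | smul a y _ hy =>
        rw [lie_smul, map_smul, hy, map_smul, mul_smul_comm, smul_mul_assoc, smul_sub]
    | zero => rw [zero_lie, map_zero, mul_zero, zero_mul, sub_zero]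
    | add y z _ _ hy hz =>
      rw [add_lie, map_add, hy, hz, map_add, mul_add, add_mul]
      abel
    | smul a y _ hy =>
      rw [smul_lie, map_smul, hy, map_smul, mul_smul_comm, smul_mul_assoc, smul_sub]
  let g : L →ₗ⁅F⁆ B :=
    { f with
      map_lie' := by
        intro x z
        rw [LieRing.of_associative_ring_bracket]
        exact h1 x z }
  refine ⟨UniversalEnvelopingAlgebra.lift F g, fun n => ?_⟩
  rw [UniversalEnvelopingAlgebra.lift_ι_apply]
  exact hfc n

lemma ι_comm (x y : L) : UniversalEnvelopingAlgebra.ι F x * UniversalEnvelopingAlgebra.ι F y -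
    UniversalEnvelopingAlgebra.ι F y * UniversalEnvelopingAlgebra.ι F x =
      UniversalEnvelopingAlgebra.ι F ⁅x, y⁆ := by
  rw [LieHom.map_lie, LieRing.of_associative_ring_bracket]

/-- The data needed, for the Witt algebra. -/
lemma witt_data [CharZero F] (e : Module.Basis ℤ F L)
    (he : ∀ m n : ℤ, ⁅e m, e n⁆ = ((n - m : ℤ) : F) • e (m + n)) :
    ∃ (x : ℤ → UniversalEnvelopingAlgebra F L) (ψ : UniversalEnvelopingAlgebra F L →ₐ[F] L2 F),
      (∀ m, ψ (x m) = eps F m) ∧
      ∀ m k : ℤ, m + k ≠ 0 → x m * x k - x k * x m = ((k - m : ℤ) : F) • x (m + k) := by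
  obtain ⟨ψ, hψ⟩ := exists_hom_basis e (L2 F) (eps F) (by
    intro m n
    rw [he, map_smul, e.constr_basis]
    exact (eps_comm m n).symm)
  refine ⟨fun m => UniversalEnvelopingAlgebra.ι F (e m), ψ, hψ, fun m k _ => ?_⟩
  beta_reduce
  rw [ι_comm, he, map_smul]

/-- The data needed, for the Virasoro algebra. -/
lemma vir_data [CharZero F] (e : Module.Basis (Option ℤ) F L) (hz : ∀ x : L, ⁅e none, x⁆ = 0)
    (he : ∀ m n : ℤ, ⁅e (some m), e (some n)⁆ = ((n - m : ℤ) : F) • e (some (m + n)) +
      (if m + n = 0 then (((m : F) ^ 3 - (m : F)) / 12) • e none else 0)) :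
    ∃ (x : ℤ → UniversalEnvelopingAlgebra F L) (ψ : UniversalEnvelopingAlgebra F L →ₐ[F] L2 F),
      (∀ m, ψ (x m) = eps F m) ∧
      ∀ m k : ℤ, m + k ≠ 0 → x m * x k - x k * x m = ((k - m : ℤ) : F) • x (m + k) := by
  set y : Option ℤ → L2 F := fun o => o.elim 0 (eps F) with hy
  have hy0 : y none = 0 := rfl
  obtain ⟨ψ, hψ⟩ := exists_hom_basis e (L2 F) y (by
    rintro (_ | m) (_ | n)
    · rw [hz, map_zero, hy0, mul_zero]
      exact (sub_self _).symm
    · rw [hz, map_zero, hy0, mul_zero, zero_mul]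
      exact (sub_self _).symm
    · rw [← lie_skew, hz, neg_zero, map_zero, hy0, mul_zero, zero_mul]
      exact (sub_self _).symm
    · rw [he, map_add, map_smul, e.constr_basis]
      have h1 : (e.constr F y) (if m + n = 0 then (((m : F) ^ 3 - (m : F)) / 12) • e none else 0)
          = 0 := by
        split_ifs
        · rw [map_smul, e.constr_basis, hy0, smul_zero]
        · rw [map_zero]
      rw [h1, add_zero]
      exact (eps_comm m n).symm)
  refine ⟨fun m => UniversalEnvelopingAlgebra.ι F (e (some m)), ψ, fun m => hψ (some m),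
    fun m k hmk => ?_⟩
  beta_reduce
  rw [ι_comm, he, if_neg hmk, add_zero, map_smul]

end uea

section fin
variable {F : Type} [Field F] [CharZero F] {U : Type} [Ring U] [Algebra F U]

/-- The abstract theorem. -/
theorem core (x : ℤ → U) (ψ : U →ₐ[F] L2 F) (hψ : ∀ m, ψ (x m) = eps F m)
    (hx : ∀ m k : ℤ, m + k ≠ 0 → x m * x k - x k * x m = ((k - m : ℤ) : F) • x (m + k)) :
    ∃ Q : TwoSidedIdeal U,
      (∃ (M : Type) (_ : AddCommGroup M) (_ : Module U M), IsSimpleModule U M ∧
        ∀ a : U, a ∈ Q ↔ ∀ v : M, a • v = 0) ∧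
      (∀ a, a ∈ Q ↔ ψ a = 0) ∧
      ∀ (n : ℕ) (φ : U →ₐ[F] LW F n), ¬ ∀ a, a ∈ Q ↔ φ a = 0 := by
  set Φ : U →ₐ[F] Module.End F (MM F) := (κ (F := F)).comp ψ with hΦ
  have hΦx : ∀ m, Φ (x m) = EN m := by
    intro m
    rw [hΦ, AlgHom.comp_apply, hψ, κ_eps]
  have hΦ0 : ∀ a, Φ a = 0 ↔ ψ a = 0 := by
    intro a
    constructor
    · intro h
      exact κ_inj h
    · intro h
      rw [hΦ, AlgHom.comp_apply, h, map_zero]
  let Q : TwoSidedIdeal U := TwoSidedIdeal.ker Φ
  have hQ : ∀ a, a ∈ Q ↔ Φ a = 0 := fun a => TwoSidedIdeal.mem_ker Φ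
  refine ⟨Q, ⟨S2 Φ, inferInstance, inferInstance, S2_simple Φ hΦx, fun a => ?_⟩,
    fun a => by rw [hQ, hΦ0], fun n φ h => ?_⟩
  · rw [hQ]
    constructor
    · intro h v
      rw [S2_smul, h]
      rfl
    · intro h
      exact LinearMap.ext fun q => h q
  · exact contra x hx Φ hΦx φ fun a => by rw [← hQ, h]

end fin

end Pool.Agent.T2H43.WQ
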