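import Pool.Agent.T2H43.WQ.Deg

/-!
The range of the powers of `t`, and a dimension count.
-/

set_option autoImplicit false
set_option linter.unusedSectionVars false

namespace Pool.Agent.T2H43.WQ

open MvPolynomial

section
variable {F : Type} [Field F] {n : ℕ}

/-- The exponents of a Laurent polynomial are at most `v` in absolute value. -/
def RR (v : ℤ) (r : RL F) : Prop := ∀ i : ℤ, r.coeff i ≠ 0 → |i| ≤ v

/-- The exponents of `t` are at most `v` in absolute value. -/
def Rng (v : ℤ) (f : Sy F n) : Prop := ∀ m, RR v (coeff m f)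

lemma RR.mono {v w : ℤ} (h : v ≤ w) {r : RL F} (hr : RR v r) : RR w r :=
  fun i hi => (hr i hi).trans h

lemma RR.zero (v : ℤ) : RR v (0 : RL F) := fun _ hi => absurd rfl hi

lemma RR.add {v : ℤ} {r r' : RL F} (h : RR v r) (h' : RR v r') : RR v (r + r') := by
  intro i hi
  rw [AddMonoidAlgebra.coeff_add, Finsupp.add_apply] at hi
  by_cases h1 : r.coeff i = 0
  · rw [h1, zero_add] at hi
    exact h' i hi
  · exact h i h1

lemma RR.smul {v : ℤ} (c : F) {r : RL F} (h : RR v r) : RR v (c • r) := by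
  intro i hi
  rw [AddMonoidAlgebra.coeff_smul, Finsupp.smul_apply] at hi
  exact h i fun h0 => hi (by rw [h0, smul_zero])

lemma RR.mul_nat {v : ℤ} (c : ℕ) {r : RL F} (h : RR v r) : RR v (r * (c : RL F)) := by
  rw [← nsmul_eq_mul']
  intro i hi
  rw [AddMonoidAlgebra.coeff_smul, Finsupp.smul_apply] at hi
  exact h i fun h0 => hi (by rw [h0, smul_zero])

lemma RR.T_mul {v : ℤ} (j : ℤ) {r : RL F} (h : RR v r) :
    RR (v + |j|) (LaurentPolynomial.T j * r) := by
  intro i hi
  unfold LaurentPolynomial.T at hi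
  rw [AddMonoidAlgebra.coeff_single_mul_apply, one_mul] at hi
  have h1 := h _ hi
  have h2 : i = (-j + i) + j := by ring
  rw [h2]
  exact (abs_add_le _ _).trans (by linarith)

lemma coeff_D (r : RL F) (i : ℤ) : (D F r).coeff i = ((i + 1 : ℤ) : F) * r.coeff (i + 1) := by
  induction r using AddMonoidAlgebra.induction_linear with
  | zero => simp
  | add f h hf hh =>
    rw [map_add, AddMonoidAlgebra.coeff_add, AddMonoidAlgebra.coeff_add, Finsupp.add_apply,
      Finsupp.add_apply, hf, hh, mul_add]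
  | single j c =>
    rw [D_single, AddMonoidAlgebra.coeff_single, AddMonoidAlgebra.coeff_single,
      Finsupp.single_apply, Finsupp.single_apply]
    by_cases hj : j = i + 1
    · subst hj
      rw [if_pos (by ring), if_pos rfl]
    · rw [if_neg (fun h => hj (by omega)), if_neg hj, mul_zero]

lemma RR.D {v : ℤ} {r : RL F} (h : RR v r) : RR (v + 1) (D F r) := by
  intro i hi
  rw [coeff_D] at hi
  have h1 := h (i + 1) (fun h0 => hi (by rw [h0, mul_zero]))
  have h2 : i = (i + 1) + (-1) := by ring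
  rw [h2]
  refine (abs_add_le _ _).trans ?_
  simp only [abs_neg, abs_one]
  linarith

lemma Rng.mono {v w : ℤ} (h : v ≤ w) {f : Sy F n} (hf : Rng v f) : Rng w f :=
  fun m => (hf m).mono h

lemma Rng.zero (v : ℤ) : Rng v (0 : Sy F n) := fun m => by rw [coeff_zero]; exact RR.zero v

lemma Rng.add {v : ℤ} {f h : Sy F n} (hf : Rng v f) (hh : Rng v h) : Rng v (f + h) :=
  fun m => by rw [coeff_add]; exact (hf m).add (hh m)

lemma Rng.smul {v : ℤ} (c : F) {f : Sy F n} (hf : Rng v f) : Rng v (c • f) :=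
  fun m => by rw [coeff_smul]; exact (hf m).smul c

lemma Rng.X_mul {v : ℤ} (x : Vr n) {f : Sy F n} (hf : Rng v f) : Rng v (X x * f) := by
  classical
  intro m
  rw [coeff_X_mul']
  split_ifs
  · exact hf _
  · exact RR.zero v

lemma Rng.one : Rng 0 (1 : Sy F n) := by
  classical
  intro m
  rw [coeff_one]
  split_ifs
  · intro i hi
    have h1 : (1 : RL F) = AddMonoidAlgebra.single 0 1 := rfl
    rw [h1, AddMonoidAlgebra.coeff_single, Finsupp.single_apply] at hi
    by_cases h0 : 0 = i
    · rw [← h0]; simp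
    · rw [if_neg h0] at hi; exact absurd rfl hi
  · exact RR.zero 0

/-- `a` changes the exponents of `t` by at most `w`. -/
def TR (w : ℤ) (a : LW F n) : Prop := ∀ (v : ℤ) (f : Sy F n), Rng v f → Rng (v + w) (ρ a f)

lemma TR.mono {v w : ℤ} (h : v ≤ w) {a : LW F n} (ha : TR v a) : TR w a :=
  fun u f hf => (ha u f hf).mono (by linarith)

lemma TR.add {w : ℤ} {a b : LW F n} (ha : TR w a) (hb : TR w b) : TR w (a + b) := by
  intro v f hf
  rw [map_add, LinearMap.add_apply]
  exact (ha v f hf).add (hb v f hf)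

lemma TR.mul {w w' : ℤ} {a b : LW F n} (ha : TR w a) (hb : TR w' b) : TR (w + w') (a * b) := by
  intro v f hf
  rw [map_mul, Module.End.mul_apply]
  exact (ha _ _ (hb v f hf)).mono (by linarith)

lemma TR.smul {w : ℤ} (c : F) {a : LW F n} (ha : TR w a) : TR w (c • a) := by
  intro v f hf
  rw [map_smul, LinearMap.smul_apply]
  exact (ha v f hf).smul c

lemma TR.sub {w : ℤ} {a b : LW F n} (ha : TR w a) (hb : TR w b) : TR w (a - b) := by
  intro v f hf
  rw [map_sub, LinearMap.sub_apply]
  have h1 : ρ a f - ρ b f = ρ a f + (-1 : F) • ρ b f := by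
    rw [neg_one_smul, sub_eq_add_neg]
  rw [h1]
  exact (ha v f hf).add ((hb v f hf).smul _)

lemma TR_zero (w : ℤ) : TR w (0 : LW F n) := by
  intro v f _
  rw [map_zero, LinearMap.zero_apply]
  exact Rng.zero _

lemma TR_algebraMap (r : F) : TR 0 (algebraMap F (LW F n) r) := by
  intro v f hf
  rw [AlgHom.commutes, Module.algebraMap_end_apply, add_zero]
  exact hf.smul r

lemma TR_γ (x : Gen n) : TR 1 (γ (F := F) x) := by
  intro v f hf
  rw [ρ_γ]
  cases x with
  | t =>
    rw [op_t]
    intro m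
    rw [coeff_C_mul]
    have := (hf m).T_mul 1
    rwa [abs_one] at this
  | tinv =>
    rw [op_tinv]
    intro m
    rw [coeff_C_mul]
    have := (hf m).T_mul (-1)
    rwa [abs_neg, abs_one] at this
  | d =>
    rw [op_d]
    refine ((hf.X_mul _).mono (by linarith)).add ?_
    intro m
    rw [coeff_DT]
    exact (hf m).D
  | s i => rw [op_s]; exact (hf.X_mul _).mono (by linarith)
  | p i =>
    rw [op_p]
    refine ((hf.X_mul _).mono (by linarith)).add ?_
    intro m
    rw [coeff_pderiv]
    have h1 : ((m (Sum.inl i) : RL F) + 1) = ((m (Sum.inl i) + 1 : ℕ) : RL F) := by push_cast; ring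
    rw [h1]
    exact ((hf _).mul_nat _).mono (by linarith)

lemma exists_TR (a : LW F n) : ∃ w : ℤ, 0 ≤ w ∧ TR w a := by
  induction a using LW.induction with
  | hc r => exact ⟨0, le_rfl, TR_algebraMap r⟩
  | hg x => exact ⟨1, by norm_num, TR_γ x⟩
  | ha a b iha ihb =>
    obtain ⟨w, hw, h1⟩ := iha
    obtain ⟨w', hw', h2⟩ := ihb
    exact ⟨w + w', by omega, (h1.mono (by omega)).add (h2.mono (by omega))⟩
  | hm a b iha ihb =>
    obtain ⟨w, hw, h1⟩ := iha
    obtain ⟨w', hw', h2⟩ := ihb
    exact ⟨w + w', by omega, h1.mul h2⟩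

/-- All exponents with entries at most `C`. -/
noncomputable def box (n C : ℕ) : Finset (Vr n →₀ ℕ) :=
  Finset.Iic (Finsupp.equivFunOnFinite.symm fun _ => C)

lemma mem_box {C : ℕ} {f : Sy F n} (hf : f.totalDegree ≤ C) {m : Vr n →₀ ℕ}
    (hm : coeff m f ≠ 0) : m ∈ box n C := by
  unfold box
  rw [Finset.mem_Iic]
  intro v
  have h1 := le_totalDegree (mem_support_iff.mpr hm)
  show m v ≤ C
  refine le_trans ?_ (h1.trans hf)
  by_cases hv : m v = 0
  · rw [hv]; exact Nat.zero_le _
  · exact Finset.single_le_sum (f := fun x => m x) (fun _ _ => Nat.zero_le _)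
      (Finsupp.mem_support_iff.mpr hv)

/-- The coefficients as a vector. -/
noncomputable def ev (n C : ℕ) (w : ℤ) :
    Sy F n →ₗ[F] ((box n C × Finset.Icc (-w) w) → F) where
  toFun f := fun x => (coeff x.1.1 f).coeff x.2.1
  map_add' f h := by funext x; simp [AddMonoidAlgebra.coeff_add]
  map_smul' r f := by
    funext x
    rw [coeff_smul, AddMonoidAlgebra.coeff_smul]
    rfl

lemma ev_inj {C : ℕ} {w : ℤ} {f : Sy F n} (hf : f.totalDegree ≤ C) (hw : Rng w f)
    (h : ev n C w f = 0) : f = 0 := by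
  apply MvPolynomial.ext
  intro m
  rw [coeff_zero]
  by_contra hm
  have h1 := mem_box hf hm
  apply hm
  apply AddMonoidAlgebra.ext
  apply Finsupp.ext
  intro i
  by_contra hi
  have h2 := hw m i hi
  rw [abs_le] at h2
  have h3 := congrFun h (⟨m, h1⟩, ⟨i, Finset.mem_Icc.mpr h2⟩)
  exact hi h3

/-- The elements of bounded degree and bounded range. -/
def VV (F : Type) [Field F] (n C : ℕ) (w : ℤ) : Submodule F (Sy F n) where
  carrier := {f | f.totalDegree ≤ C ∧ Rng w f}
  add_mem' := fun {a b} ha hb =>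
    ⟨(totalDegree_add a b).trans (max_le ha.1 hb.1), ha.2.add hb.2⟩
  zero_mem' := ⟨by rw [totalDegree_zero]; exact Nat.zero_le _, Rng.zero _⟩
  smul_mem' := fun c f hf => by
    refine ⟨le_trans (totalDegree_le_of_support_subset ?_) hf.1, hf.2.smul c⟩
    intro m hm
    rw [mem_support_iff] at hm ⊢
    intro h
    apply hm
    rw [coeff_smul, h, smul_zero]

lemma count {C : ℕ} {w : ℤ} {ι : Type} [Fintype ι] (v : ι → Sy F n)
    (hv : ∀ i, v i ∈ VV F n C w) (hli : LinearIndependent F v) :
    Fintype.card ι ≤ (box n C).card * (Finset.Icc (-w) w).card := by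
  have h1 : LinearIndependent F (ev n C w ∘ v) := by
    apply hli.map
    rw [Submodule.disjoint_def]
    intro x hx hx0
    have h2 : x ∈ VV F n C w := by
      have h3 : Submodule.span F (Set.range v) ≤ VV F n C w := by
        rw [Submodule.span_le]
        rintro _ ⟨i, rfl⟩
        exact hv i
      exact h3 hx
    exact ev_inj h2.1 h2.2 hx0
  have h2 := h1.fintype_card_le_finrank
  rw [Module.finrank_fintype_fun_eq_card, Fintype.card_prod, Fintype.card_coe,
    Fintype.card_coe] at h2
  exact h2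

/-- There is no linearly independent family indexed by the plane of elements of bounded degree
and of linearly bounded range. -/
theorem no_family (C a b : ℕ) (h : ℤ × ℤ → LW F n) (hdeg : ∀ p, dg (h p) ≤ C)
    (hr : ∀ p, Rng ((a : ℤ) * (|p.1| + |p.2|) + b) (ρ (h p) 1)) (hli : LinearIndependent F h) :
    False := by
  set K := (box n C).card with hK
  set N : ℕ := K * (2 * a + 2 * b + 1) with hN
  set w : ℤ := 2 * a * N + b with hw
  let S := Finset.Icc (-(N : ℤ)) N
  let v : S × S → Sy F n := fun x => ρ (h (x.1.1, x.2.1)) 1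
  have h1 : LinearIndependent F v := by
    let φ : LW F n →ₗ[F] Sy F n :=
      { toFun := fun a => ρ a 1
        map_add' := fun a b => by rw [map_add, LinearMap.add_apply]
        map_smul' := fun c a => by rw [map_smul, LinearMap.smul_apply]; rfl }
    have hφ : LinearMap.ker φ = ⊥ := by
      rw [LinearMap.ker_eq_bot']
      intro x hx
      rw [← Λ_symbol x]
      have : ρ x 1 = 0 := hx
      rw [this, map_zero]
    have h2 := (hli.map' φ hφ)
    refine h2.comp (fun x : S × S => (x.1.1, x.2.1)) ?_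
    intro x y hxy
    simp only [Prod.mk.injEq] at hxy
    exact Prod.ext (Subtype.ext hxy.1) (Subtype.ext hxy.2)
  have h2 : ∀ x, v x ∈ VV F n C w := by
    intro x
    refine ⟨hdeg _, (hr _).mono ?_⟩
    have h3 := Finset.mem_Icc.mp x.1.2
    have h4 := Finset.mem_Icc.mp x.2.2
    have h5 : |x.1.1| ≤ (N : ℤ) := abs_le.mpr h3
    have h6 : |x.2.1| ≤ (N : ℤ) := abs_le.mpr h4
    have h7 : (a : ℤ) * (|x.1.1| + |x.2.1|) ≤ a * (2 * N) := by
      apply mul_le_mul_of_nonneg_left _ (Nat.cast_nonneg a)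
      linarith
    show (a : ℤ) * (|x.1.1| + |x.2.1|) + b ≤ w
    rw [hw]
    linarith
  have h3 := count v h2 h1
  have h4 : Fintype.card (S × S) = (2 * N + 1) * (2 * N + 1) := by
    have h5 : S.card = 2 * N + 1 := by
      rw [Int.card_Icc]; omega
    rw [Fintype.card_prod, Fintype.card_coe, h5]
  have h5 : (Finset.Icc (-w) w).card = 2 * (2 * a * N + b) + 1 := by
    rw [Int.card_Icc, hw]
    have h6 : 2 * (a : ℤ) * N + b + 1 - -(2 * (a : ℤ) * N + b) =
        ((2 * (2 * a * N + b) + 1 : ℕ) : ℤ) := by push_cast; ring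
    rw [h6, Int.toNat_natCast]
  rw [h4, h5, ← hK] at h3
  have h6 : K * (2 * (2 * a * N + b) + 1) ≤ K * (2 * a + 2 * b + 1) * (2 * N + 1) := by
    rw [mul_assoc K]
    apply Nat.mul_le_mul_left
    nlinarith
  rw [← hN] at h6
  nlinarith

end

end Pool.Agent.T2H43.WQ
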