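import Pool.Agent.T2H43.WQ.Gel
import Pool.Agent.T2H43.WQ.Rng

/-!
The identity between the elements, their linear independence, and the contradiction.
-/

set_option autoImplicit false
set_option linter.unusedSectionVars false

namespace Pool.Agent.T2H43.WQ

open MvPolynomial Pool.Agent.R693 Pool.Agent.R693.Q

section abs
variable {F : Type} [Field F] {A : Type*} [Ring A] [Algebra F A] {Y0 Y1 : ℤ → A} {z P : A}

lemma star_aux (h00 : ∀ m n, Y0 m * Y0 n = Y0 (m + n)) (hone : Y0 0 = 1)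
    (h11 : ∀ m n, Y1 m * Y1 n = Y1 (m + n)) (h01 : ∀ m n, Y0 m * Y1 n = Y1 n * Y0 m)
    (hz0 : ∀ n, z * Y0 n = Y0 n * z - (n : F) • Y0 n) (hz1 : ∀ n, z * Y1 n = Y1 n * z)
    (hP0 : ∀ n, P * Y0 n = Y0 n * P) (hP1 : ∀ n, P * Y1 n = Y1 n * P) (i j : ℤ) :
    (P * (Y1 (i + 2) * (Y0 j * z))) * (P * (Y1 (-i + 2) * (Y0 (-j) * z))) =
      P * Y1 4 * (z * (P * z)) + (j : F) • (P * Y1 4 * (P * z)) := by
  have e1 : (P * (Y1 (i + 2) * (Y0 j * z))) * (P * (Y1 (-i + 2) * (Y0 (-j) * z))) =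
      P * Y1 (i + 2) * (Y0 j * (z * ((P * Y1 (-i + 2)) * (Y0 (-j) * z)))) := by
    simp only [mul_assoc]
  have e2 : z * ((P * Y1 (-i + 2)) * (Y0 (-j) * z)) =
      Y1 (-i + 2) * (Y0 (-j) * (z * (P * z)) + (j : F) • (Y0 (-j) * (P * z))) := by
    rw [hP1]
    calc z * (Y1 (-i + 2) * P * (Y0 (-j) * z)) = (z * Y1 (-i + 2)) * ((P * Y0 (-j)) * z) := by
          simp only [mul_assoc]
      _ = Y1 (-i + 2) * ((z * Y0 (-j)) * (P * z)) := by
          rw [hz1, hP0]; simp only [mul_assoc]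
      _ = _ := by
          rw [hz0, sub_mul, smul_mul_assoc, mul_assoc]
          congr 1
          push_cast
          module
  have e3 : ∀ v : A, Y0 j * (Y1 (-i + 2) * (Y0 (-j) * v)) = Y1 (-i + 2) * v := by
    intro v
    calc Y0 j * (Y1 (-i + 2) * (Y0 (-j) * v)) = (Y0 j * Y1 (-i + 2)) * (Y0 (-j) * v) := by
          simp only [mul_assoc]
      _ = Y1 (-i + 2) * ((Y0 j * Y0 (-j)) * v) := by rw [h01]; simp only [mul_assoc]
      _ = _ := by rw [h00, add_neg_cancel, hone, one_mul]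
  have e4 : ∀ v : A, P * Y1 (i + 2) * (Y1 (-i + 2) * v) = P * Y1 4 * v := by
    intro v
    rw [mul_assoc P, ← mul_assoc (Y1 (i + 2)), h11, ← mul_assoc P]
    congr 3
    ring
  rw [e1, e2, mul_add, mul_add, e3, mul_smul_comm, mul_smul_comm, e3, mul_add, e4, mul_smul_comm,
    e4]

/-- The identity. -/
lemma star_abs (h00 : ∀ m n, Y0 m * Y0 n = Y0 (m + n)) (hone : Y0 0 = 1)
    (h11 : ∀ m n, Y1 m * Y1 n = Y1 (m + n)) (h01 : ∀ m n, Y0 m * Y1 n = Y1 n * Y0 m)
    (hz0 : ∀ n, z * Y0 n = Y0 n * z - (n : F) • Y0 n) (hz1 : ∀ n, z * Y1 n = Y1 n * z)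
    (hP0 : ∀ n, P * Y0 n = Y0 n * P) (hP1 : ∀ n, P * Y1 n = Y1 n * P) {g : ℤ → ℤ → A}
    (hg : ∀ i j, g i j = (4 : F) • (P * (Y1 (i + 2) * (Y0 j * z)))) (i j : ℤ) :
    g i j * g (-i) (-j) = ((1 - j : ℤ) : F) • (g 0 0 * g 0 0) + (j : F) • (g 0 1 * g 0 (-1)) := by
  have h1 := star_aux h00 hone h11 h01 hz0 hz1 hP0 hP1
  have h2 := h1 i j
  have h3 := h1 0 0
  have h4 := h1 0 1
  rw [neg_zero, Int.cast_zero, zero_smul, add_zero] at h3
  rw [neg_zero, Int.cast_one, one_smul] at h4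
  rw [hg, hg, hg, hg, hg, smul_mul_smul_comm, smul_mul_smul_comm, smul_mul_smul_comm, h2, h3, h4]
  push_cast
  module

end abs

section
variable {F : Type} [Field F] [CharZero F]

lemma dd_comm (s : Fin 2) (n : ℤ) : dd F ^ 6 * yy s n = yy s n * dd F ^ 6 := by
  apply Commute.pow_left
  unfold dd
  exact Commute.sub_left (yy_comm 1 s 1 n) (yy_comm 0 s 1 n)

lemma star (i j : ℤ) : gel F (EN (F := F)) i j * gel F EN (-i) (-j) =
    ((1 - j : ℤ) : F) • (gel F EN 0 0 * gel F EN 0 0) +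
      (j : F) • (gel F EN 0 1 * gel F EN 0 (-1)) :=
  star_abs (F := F) (A := Module.End F (MM F)) (Y0 := yy 0) (Y1 := yy 1) (z := zz 0)
    (P := dd F ^ 6) (yy_mul 0) (yy_zero 0) (yy_mul 1) (yy_comm 0 1) (zz_yy 0)
    (zz_yy_ne (by decide)) (dd_comm 0) (dd_comm 1) (fun i j => gel_EN i j) i j

/-- `dd` is injective. -/
lemma dd_inj_aux (d : ℕ) : ∀ q ∈ LT (Fin 2) F d, dd F q = 0 → q = 0 := by
  induction d with
  | zero => intro q hq _; exact LT_zero hq
  | succ d ih =>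
    intro q hq h
    apply ih q _ h
    have h1 := sh_sub_mem (Pi.single 1 1 : Fin 2 → ℤ) hq
    have h2 := sh_sub_mem (Pi.single 0 1 : Fin 2 → ℤ) hq
    unfold dd at h
    rw [LinearMap.sub_apply, yy_apply, yy_apply, zpow_one, zpow_one] at h
    have l0 : lam F 0 = 1 := if_pos rfl
    have l1 : lam F 1 = -1 := if_neg (by decide)
    rw [l0, l1, one_smul, neg_one_smul] at h
    have h3 : q = (-(1 / 2 : F)) • ((sh (Pi.single 1 1) q - q) + (sh (Pi.single 0 1) q - q)) := by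
      have h4 : (sh (Pi.single 1 1) q - q) + (sh (Pi.single 0 1) q - q) = (-2 : F) • q := by
        have h5 : (sh (Pi.single 1 1) q - q) + (sh (Pi.single 0 1) q - q) =
            -(-(sh (Pi.single 1 1) q) - sh (Pi.single 0 1) q) - (2 : F) • q := by
          rw [two_smul]; abel
        rw [h5, h, neg_zero, zero_sub, neg_smul]
      rw [h4, smul_smul]
      norm_num
    rw [h3]
    exact Submodule.smul_mem _ _ (Submodule.add_mem _ h1 h2)

lemma dd_inj {q : MM F} (h : dd F q = 0) : q = 0 := by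
  obtain ⟨d, hd⟩ := exists_LT q
  exact dd_inj_aux d q hd h

lemma dd_pow_inj (k : ℕ) {q : MM F} (h : (dd F ^ k) q = 0) : q = 0 := by
  induction k with
  | zero => rwa [pow_zero, Module.End.one_apply] at h
  | succ k ih =>
    rw [pow_succ', Module.End.mul_apply] at h
    exact ih (dd_inj h)

/-- The evaluation at a point with integral coordinates. -/
noncomputable def evp (F : Type) [Field F] (p : ℤ × ℤ) : MM F →+* F :=
  eval (fun s : Fin 2 => if s = 0 then (p.1 : F) else (p.2 : F))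

lemma evp_inj : Function.Injective (fun p : ℤ × ℤ => (evp F p : MM F →* F)) := by
  intro p q h
  have h0 := DFunLike.congr_fun h (X 0 : MM F)
  have h1 := DFunLike.congr_fun h (X 1 : MM F)
  simp only [evp, MonoidHom.coe_coe, eval_X, if_pos, if_neg (show (1 : Fin 2) ≠ 0 by decide)]
    at h0 h1
  exact Prod.ext (by exact_mod_cast h0) (by exact_mod_cast h1)

lemma evp_li : LinearIndependent F (fun p : ℤ × ℤ => (evp F p : MM F → F)) :=
  (linearIndependent_monoidHom (MM F) F).comp _ evp_inj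

lemma evp_sh (p : ℤ × ℤ) (i j : ℤ) (q : MM F) :
    evp F p (sh (Pi.single 1 i) (sh (Pi.single 0 j) q)) = evp F (p.1 + j, p.2 + i) q := by
  unfold evp
  rw [sh_add, eval_sh]
  congr 1
  congr 1
  funext s
  fin_cases s
  · simp
  · simp

lemma gel_apply (i j : ℤ) (q : MM F) : gel F (EN (F := F)) i j q =
    (4 : F) • (dd F ^ 6) ((-1 : F) ^ (i + 2) • sh (Pi.single 1 (i + 2)) (sh (Pi.single 0 j)
      (X 0 * q))) := by
  rw [gel_EN, LinearMap.smul_apply, Module.End.mul_apply, Module.End.mul_apply,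
    Module.End.mul_apply, yy_apply, yy_apply, zz_apply]
  have l0 : lam F 0 = 1 := if_pos rfl
  have l1 : lam F 1 = -1 := if_neg (by decide)
  rw [l0, l1, one_zpow, one_smul]

/-- The elements are linearly independent. -/
lemma gel_li : LinearIndependent F (fun p : ℤ × ℤ => gel F (EN (F := F)) p.1 p.2) := by
  rw [linearIndependent_iff']
  intro s c hc
  have h1 : ∀ q : MM F, ∑ p ∈ s, (c p * (-1 : F) ^ (p.1 + 2)) •
      sh (Pi.single 1 (p.1 + 2)) (sh (Pi.single 0 p.2) (X 0 * q)) = 0 := by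
    intro q
    have h2 := congrArg (fun T : Module.End F (MM F) => T q) hc
    simp only [LinearMap.sum_apply, LinearMap.smul_apply, gel_apply, LinearMap.zero_apply] at h2
    have h3 : (dd F ^ 6) (∑ p ∈ s, (c p * (-1 : F) ^ (p.1 + 2)) •
        sh (Pi.single 1 (p.1 + 2)) (sh (Pi.single 0 p.2) (X 0 * q))) = 0 := by
      rw [map_sum]
      have h4 : (4 : F) • ∑ p ∈ s, (dd F ^ 6) ((c p * (-1 : F) ^ (p.1 + 2)) •
        sh (Pi.single 1 (p.1 + 2)) (sh (Pi.single 0 p.2) (X 0 * q))) = 0 := by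
        rw [Finset.smul_sum]
        refine Eq.trans (Finset.sum_congr rfl fun p _ => ?_) h2
        rw [mul_smul, map_smul, smul_comm]
      rcases smul_eq_zero.mp h4 with h5 | h5
      · exact absurd h5 (by norm_num)
      · exact h5
    exact dd_pow_inj 6 h3
  have h2 : ∀ a : ℤ, ∀ p ∈ s, c p * (-1 : F) ^ (p.1 + 2) * ((a + p.2 : ℤ) : F) = 0 := by
    intro a
    have hli := evp_li (F := F)
    have hli2 : LinearIndependent F
        (fun p : ℤ × ℤ => (evp F (a + p.2, 0 + (p.1 + 2)) : MM F → F)) := by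
      refine hli.comp (fun p : ℤ × ℤ => (a + p.2, 0 + (p.1 + 2))) ?_
      intro p p' h
      simp only [Prod.mk.injEq] at h
      exact Prod.ext (by omega) (by omega)
    rw [linearIndependent_iff'] at hli2
    apply hli2 s
    funext q
    rw [Finset.sum_apply, Pi.zero_apply]
    have h3 := congrArg (evp F (a, 0)) (h1 q)
    rw [map_sum, map_zero] at h3
    refine Eq.trans (Finset.sum_congr rfl fun p _ => ?_) h3
    rw [Pi.smul_apply, smul_eq_mul, smul_eq_C_mul, map_mul (evp F (a, 0)), evp_sh,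
      map_mul (evp F _) (X 0)]
    have e1 : evp F (a, 0) (C (c p * (-1 : F) ^ (p.1 + 2))) = c p * (-1 : F) ^ (p.1 + 2) := by
      unfold evp; rw [eval_C]
    have e2 : evp F ((a, 0).1 + p.2, (a, 0).2 + (p.1 + 2)) (X 0) = ((a + p.2 : ℤ) : F) := by
      unfold evp; rw [eval_X, if_pos rfl]
    rw [e1, e2]
    ring
  intro p hp
  have h3 := h2 0 p hp
  have h4 := h2 1 p hp
  have h5 : c p * (-1 : F) ^ (p.1 + 2) = 0 := by
    push_cast at h3 h4
    linear_combination h4 - h3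
  rcases mul_eq_zero.mp h5 with h6 | h6
  · exact h6
  · exact absurd h6 (zpow_ne_zero _ (neg_ne_zero.mpr one_ne_zero))

end

end Pool.Agent.T2H43.WQ
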