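import Pool.Agent.R693.Q.Simple

/-!
The two-point module and its operators.
-/

set_option autoImplicit false
set_option linter.unusedSectionVars false

namespace Pool.Agent.T2H43.WQ

open MvPolynomial Pool.Agent.R693.Q

section
variable (F : Type) [Field F] [CharZero F]

/-- The module. -/
abbrev MM : Type := MvPolynomial (Fin 2) F

/-- The points. -/
def lam (s : Fin 2) : F := if s = 0 then 1 else -1

/-- The weights minus one. -/
def cw (s : Fin 2) : ℤ := if s = 0 then 0 else 1

variable {F}

lemma lam_ne (s : Fin 2) : lam F s ≠ 0 := by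
  unfold lam; split_ifs
  · exact one_ne_zero
  · exact neg_ne_zero.mpr one_ne_zero

lemma lam_inj : Function.Injective (lam F) := by
  have h1 : (1 : F) ≠ -1 := by
    intro h
    have h2 : (2 : F) = 0 := by linear_combination h
    exact two_ne_zero h2
  intro a b hab
  fin_cases a <;> fin_cases b
  · rfl
  · exact absurd hab h1
  · exact absurd hab h1.symm
  · rfl

/-- The shift `y_s ^ n`. -/
noncomputable def yy (s : Fin 2) (n : ℤ) : Module.End F (MM F) :=
  (lam F s ^ n) • ((sh (Pi.single s n)).toLinearMap : Module.End F (MM F))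

lemma yy_apply (s : Fin 2) (n : ℤ) (q : MM F) : yy s n q = lam F s ^ n • sh (Pi.single s n) q := rfl

/-- Multiplication by a variable. -/
noncomputable def zz (s : Fin 2) : Module.End F (MM F) := LinearMap.mulLeft F (X s)

lemma zz_apply (s : Fin 2) (q : MM F) : zz s q = X s * q := rfl

lemma yy_mul (s : Fin 2) (m n : ℤ) : yy (F := F) s m * yy s n = yy s (m + n) := by
  apply LinearMap.ext; intro q
  rw [Module.End.mul_apply, yy_apply, yy_apply, yy_apply, map_smul, smul_smul, sh_add,
    ← Pi.single_add, zpow_add₀ (lam_ne s)]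

lemma yy_zero (s : Fin 2) : yy (F := F) s 0 = 1 := by
  apply LinearMap.ext; intro q
  rw [yy_apply, zpow_zero, one_smul, Pi.single_zero, sh_zero, Module.End.one_apply]

lemma yy_comm (s r : Fin 2) (m n : ℤ) : yy (F := F) s m * yy r n = yy r n * yy s m := by
  apply LinearMap.ext; intro q
  rw [Module.End.mul_apply, Module.End.mul_apply, yy_apply, yy_apply, yy_apply, yy_apply, map_smul,
    map_smul, smul_smul, smul_smul, sh_add, sh_add, add_comm (Pi.single s m : Fin 2 → ℤ),
    mul_comm (lam F s ^ m)]

lemma zz_yy (s : Fin 2) (n : ℤ) : zz (F := F) s * yy s n = yy s n * zz s - (n : F) • yy s n := by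
  apply LinearMap.ext; intro q
  rw [LinearMap.sub_apply, LinearMap.smul_apply, Module.End.mul_apply, Module.End.mul_apply,
    zz_apply, zz_apply, yy_apply, yy_apply, map_mul, sh_X, Pi.single_eq_same, mul_smul_comm,
    smul_comm (n : F), ← smul_sub, smul_eq_C_mul (sh _ q)]
  congr 1
  ring

lemma zz_yy_ne {s r : Fin 2} (h : s ≠ r) (n : ℤ) : zz (F := F) s * yy r n = yy r n * zz s := by
  apply LinearMap.ext; intro q
  rw [Module.End.mul_apply, Module.End.mul_apply, zz_apply, zz_apply, yy_apply, yy_apply, map_mul,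
    sh_X, Pi.single_eq_of_ne h, Int.cast_zero, C_0, add_zero, mul_smul_comm]

lemma zz_zz (s r : Fin 2) : zz (F := F) s * zz r = zz r * zz s := by
  apply LinearMap.ext; intro q
  rw [Module.End.mul_apply, Module.End.mul_apply, zz_apply, zz_apply, zz_apply, zz_apply]
  ring

/-- The operator of `e n` at one point. -/
noncomputable def xx (s : Fin 2) (n : ℤ) : Module.End F (MM F) :=
  yy s n * zz s + ((cw s * n : ℤ) : F) • yy s n

/-- The operator of `e n`. -/
noncomputable def EN (n : ℤ) : Module.End F (MM F) := -(xx 0 n + xx 1 n)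

lemma xx_comm_ne {s r : Fin 2} (h : s ≠ r) (m n : ℤ) :
    xx (F := F) s m * xx r n = xx r n * xx s m := by
  unfold xx
  have h1 := zz_yy_ne (F := F) h n
  have h2 := zz_yy_ne (F := F) h.symm m
  have h3 := yy_comm (F := F) s r m n
  have h4 := zz_zz (F := F) s r
  have e1 : yy (F := F) s m * zz s * (yy r n * zz r) = yy r n * zz r * (yy s m * zz s) := by
    calc yy (F := F) s m * zz s * (yy r n * zz r) = yy s m * (zz s * yy r n) * zz r := by
          noncomm_ring
      _ = (yy s m * yy r n) * (zz s * zz r) := by rw [h1]; noncomm_ring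
      _ = yy r n * (yy s m * zz r) * zz s := by rw [h3, h4]; noncomm_ring
      _ = _ := by rw [← h2]; noncomm_ring
  have e2 : yy (F := F) s m * zz s * yy r n = yy r n * (yy s m * zz s) := by
    calc yy (F := F) s m * zz s * yy r n = yy s m * (zz s * yy r n) := by noncomm_ring
      _ = (yy s m * yy r n) * zz s := by rw [h1]; noncomm_ring
      _ = _ := by rw [h3]; noncomm_ring
  have e3 : yy (F := F) s m * (yy r n * zz r) = yy r n * zz r * yy s m := by
    calc yy (F := F) s m * (yy r n * zz r) = (yy s m * yy r n) * zz r := by noncomm_ring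
      _ = yy r n * (yy s m * zz r) := by rw [h3]; noncomm_ring
      _ = _ := by rw [← h2]; noncomm_ring
  rw [mul_add, mul_add, add_mul, add_mul, add_mul, add_mul, e1, mul_smul_comm, mul_smul_comm,
    smul_mul_assoc, smul_mul_assoc, e2, e3, smul_mul_assoc, smul_mul_assoc, mul_smul_comm,
    mul_smul_comm, h3]
  abel

/-- Product at one point. -/
lemma xx_mul (s : Fin 2) (m n : ℤ) : xx (F := F) s m * xx s n =
    yy s (m + n) * zz s * zz s + ((cw s * (m + n) - n : ℤ) : F) • (yy s (m + n) * zz s) +
      (((cw s * m - n) * (cw s * n) : ℤ) : F) • yy s (m + n) := by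
  unfold xx
  have h1 := zz_yy (F := F) s n
  have h2 := yy_mul (F := F) s m n
  have e1 : yy (F := F) s m * zz s * (yy s n * zz s) =
      yy s (m + n) * zz s * zz s - (n : F) • (yy s (m + n) * zz s) := by
    calc yy (F := F) s m * zz s * (yy s n * zz s) = yy s m * (zz s * yy s n) * zz s := by
          noncomm_ring
      _ = _ := by
        rw [h1, mul_sub, sub_mul, mul_smul_comm, ← mul_assoc, h2, smul_mul_assoc]
  have e2 : yy (F := F) s m * zz s * yy s n = yy s (m + n) * zz s - (n : F) • yy s (m + n) := by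
    rw [mul_assoc, h1, mul_sub, ← mul_assoc, h2, mul_smul_comm, h2]
  rw [mul_add, add_mul, add_mul, mul_smul_comm, mul_smul_comm, smul_mul_assoc, smul_mul_assoc,
    e1, e2, h2, ← mul_assoc, h2]
  push_cast
  module

lemma EN_comm (m n : ℤ) : EN (F := F) m * EN n - EN n * EN m = ((n - m : ℤ) : F) • EN (m + n) := by
  unfold EN
  have h1 := xx_comm_ne (F := F) (show (0 : Fin 2) ≠ 1 by decide) m n
  have h2 := xx_comm_ne (F := F) (show (0 : Fin 2) ≠ 1 by decide) n m
  have e : ∀ s : Fin 2, xx (F := F) s m * xx s n - xx s n * xx s m =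
      ((m - n : ℤ) : F) • xx s (m + n) := by
    intro s
    rw [xx_mul, xx_mul, add_comm n m, xx]
    push_cast
    module
  have e0 := e 0
  have e1 := e 1
  have h0 : ∀ a b : Module.End F (MM F), -a * -b = a * b := fun a b => by
    apply LinearMap.ext; intro q
    rw [Module.End.mul_apply, LinearMap.neg_apply, LinearMap.neg_apply, map_neg, neg_neg,
      Module.End.mul_apply]
  rw [h0, h0, mul_add, mul_add, add_mul, add_mul, add_mul, add_mul]
  have h3 : ((n - m : ℤ) : F) • -(xx (F := F) 0 (m + n) + xx 1 (m + n)) =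
      ((m - n : ℤ) : F) • xx 0 (m + n) + ((m - n : ℤ) : F) • xx 1 (m + n) := by
    push_cast
    module
  rw [h3, ← e0, ← e1, h1, h2]
  abel

end

end Pool.Agent.T2H43.WQ
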