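import Mathlib

/-!
The algebra `k[t, t⁻¹, ∂] ⊗ A_n` by generators and relations, its action on the polynomial ring of
symbols, and the multiplicativity of the total degree of symbols.
-/

set_option autoImplicit false
set_option linter.unusedSectionVars false

namespace Pool.Agent.T2H43.WQ

open MvPolynomial

/-- The generators `t`, `t⁻¹`, `∂` and `s_i`, `∂_i` of `F[t, t⁻¹, ∂] ⊗ A_n`. -/
inductive Gen (n : ℕ) : Type
  | t : Gen n
  | tinv : Gen n
  | d : Gen n
  | s (i : Fin n) : Gen n
  | p (i : Fin n) : Gen n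

section defs
variable (F : Type) [Field F] (n : ℕ)

/-- A generator as an element of the free algebra. -/
abbrev g {n : ℕ} (x : Gen n) : FreeAlgebra F (Gen n) := FreeAlgebra.ι F x

/-- The defining relations of `F[t, t⁻¹, ∂] ⊗ A_n`: `t t⁻¹ = t⁻¹ t = 1`, `[∂, t] = 1`,
`[∂_i, s_j] = δ_ij`, and all other pairs of generators commute. -/
inductive Rel : FreeAlgebra F (Gen n) → FreeAlgebra F (Gen n) → Prop
  | t_tinv : Rel (g F Gen.t * g F Gen.tinv) 1
  | tinv_t : Rel (g F Gen.tinv * g F Gen.t) 1
  | d_t : Rel (g F Gen.d * g F Gen.t) (g F Gen.t * g F Gen.d + 1)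
  | p_s (i j : Fin n) : Rel (g F (Gen.p i) * g F (Gen.s j))
      (g F (Gen.s j) * g F (Gen.p i) + if i = j then 1 else 0)
  | s_s (i j : Fin n) : Rel (g F (Gen.s i) * g F (Gen.s j)) (g F (Gen.s j) * g F (Gen.s i))
  | p_p (i j : Fin n) : Rel (g F (Gen.p i) * g F (Gen.p j)) (g F (Gen.p j) * g F (Gen.p i))
  | t_s (i : Fin n) : Rel (g F Gen.t * g F (Gen.s i)) (g F (Gen.s i) * g F Gen.t)
  | t_p (i : Fin n) : Rel (g F Gen.t * g F (Gen.p i)) (g F (Gen.p i) * g F Gen.t)
  | d_s (i : Fin n) : Rel (g F Gen.d * g F (Gen.s i)) (g F (Gen.s i) * g F Gen.d)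
  | d_p (i : Fin n) : Rel (g F Gen.d * g F (Gen.p i)) (g F (Gen.p i) * g F Gen.d)

/-- The algebra `F[t, t⁻¹, ∂] ⊗ A_n`, where `F[t, t⁻¹, ∂]` is the first Weyl algebra localised at `t`
and `A_n` is the `n`-th Weyl algebra, by generators and relations. -/
abbrev LW : Type := RingQuot (Rel F n)

end defs

section alg
variable {F : Type} [Field F] {n : ℕ}

/-- The image of a generator. -/
noncomputable def γ (x : Gen n) : LW F n := RingQuot.mkAlgHom F (Rel F n) (g F x)

lemma γ_t_tinv : γ (F := F) (Gen.t : Gen n) * γ Gen.tinv = 1 := by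
  unfold γ; rw [← map_mul, RingQuot.mkAlgHom_rel F (Rel.t_tinv), map_one]

lemma γ_tinv_t : γ (F := F) (Gen.tinv : Gen n) * γ Gen.t = 1 := by
  unfold γ; rw [← map_mul, RingQuot.mkAlgHom_rel F (Rel.tinv_t), map_one]

lemma γ_d_t : γ (F := F) (Gen.d : Gen n) * γ Gen.t = γ Gen.t * γ Gen.d + 1 := by
  unfold γ
  rw [← map_mul, RingQuot.mkAlgHom_rel F (Rel.d_t), map_add, map_mul, map_one]

lemma γ_p_s (i j : Fin n) : γ (F := F) (Gen.p i) * γ (Gen.s j) =
    γ (Gen.s j) * γ (Gen.p i) + if i = j then 1 else 0 := by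
  unfold γ
  rw [← map_mul, RingQuot.mkAlgHom_rel F (Rel.p_s i j), map_add, map_mul]
  split_ifs
  · rw [map_one]
  · rw [map_zero]

lemma γ_s_s (i j : Fin n) : γ (F := F) (Gen.s i) * γ (Gen.s j) = γ (Gen.s j) * γ (Gen.s i) := by
  unfold γ; rw [← map_mul, RingQuot.mkAlgHom_rel F (Rel.s_s i j), map_mul]

lemma γ_p_p (i j : Fin n) : γ (F := F) (Gen.p i) * γ (Gen.p j) = γ (Gen.p j) * γ (Gen.p i) := by
  unfold γ; rw [← map_mul, RingQuot.mkAlgHom_rel F (Rel.p_p i j), map_mul]

lemma γ_t_s (i : Fin n) : γ (F := F) Gen.t * γ (Gen.s i) = γ (Gen.s i) * γ Gen.t := by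
  unfold γ; rw [← map_mul, RingQuot.mkAlgHom_rel F (Rel.t_s i), map_mul]

lemma γ_t_p (i : Fin n) : γ (F := F) Gen.t * γ (Gen.p i) = γ (Gen.p i) * γ Gen.t := by
  unfold γ; rw [← map_mul, RingQuot.mkAlgHom_rel F (Rel.t_p i), map_mul]

lemma γ_d_s (i : Fin n) : γ (F := F) Gen.d * γ (Gen.s i) = γ (Gen.s i) * γ Gen.d := by
  unfold γ; rw [← map_mul, RingQuot.mkAlgHom_rel F (Rel.d_s i), map_mul]

lemma γ_d_p (i : Fin n) : γ (F := F) Gen.d * γ (Gen.p i) = γ (Gen.p i) * γ Gen.d := by
  unfold γ; rw [← map_mul, RingQuot.mkAlgHom_rel F (Rel.d_p i), map_mul]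

/-- Induction: a property of elements closed under the operations holds everywhere. -/
lemma LW.induction {P : LW F n → Prop} (hc : ∀ r : F, P (algebraMap F _ r))
    (hg : ∀ x, P (γ x)) (ha : ∀ a b, P a → P b → P (a + b)) (hm : ∀ a b, P a → P b → P (a * b))
    (a : LW F n) : P a := by
  obtain ⟨w, rfl⟩ := RingQuot.mkAlgHom_surjective F (Rel F n) a
  induction w using FreeAlgebra.induction with
  | grade0 r => rw [AlgHom.commutes]; exact hc r
  | grade1 x => exact hg x
  | mul a b iha ihb => rw [map_mul]; exact hm _ _ iha ihb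
  | add a b iha ihb => rw [map_add]; exact ha _ _ iha ihb

end alg

/-! ### The ring of symbols -/

section sym
variable (F : Type) [Field F] (n : ℕ)

/-- The variables: `s_i` and the symbols of `∂` (the element `none`) and `∂_i`. -/
abbrev Vr : Type := Fin n ⊕ Option (Fin n)

/-- Laurent polynomials. -/
abbrev RL : Type := LaurentPolynomial F

/-- The ring of symbols. -/
abbrev Sy : Type := MvPolynomial (Vr n) (RL F)

/-- The derivative of Laurent polynomials. -/
noncomputable def D : RL F →ₗ[F] RL F where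
  toFun f := AddMonoidAlgebra.ofCoeff (f.coeff.sum fun i r => Finsupp.single (i - 1) ((i : F) * r))
  map_add' f h := by
    rw [AddMonoidAlgebra.coeff_add, Finsupp.sum_add_index']
    · rfl
    · intro i; rw [mul_zero, Finsupp.single_zero]
    · intro i a b; rw [mul_add, Finsupp.single_add]
  map_smul' r f := by
    rw [AddMonoidAlgebra.coeff_smul, Finsupp.sum_smul_index', RingHom.id_apply]
    · rw [Finsupp.sum, Finsupp.sum, ← AddMonoidAlgebra.ofCoeff_smul, Finset.smul_sum]
      congr 1
      refine Finset.sum_congr rfl fun i _ => ?_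
      rw [Finsupp.smul_single, smul_eq_mul, smul_eq_mul]
      congr 1
      ring
    · intro i; rw [mul_zero, Finsupp.single_zero]

variable {F}

lemma D_single (i : ℤ) (r : F) : D F (AddMonoidAlgebra.single i r) =
    AddMonoidAlgebra.single (i - 1) ((i : F) * r) := by
  show AddMonoidAlgebra.ofCoeff _ = _
  rw [AddMonoidAlgebra.coeff_single, Finsupp.sum_single_index, AddMonoidAlgebra.ofCoeff_single]
  rw [mul_zero, Finsupp.single_zero]

lemma D_T_mul (f : RL F) : D F (LaurentPolynomial.T 1 * f) = LaurentPolynomial.T 1 * D F f + f := by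
  induction f using AddMonoidAlgebra.induction_linear with
  | zero => simp
  | add f h hf hh => rw [mul_add, map_add, map_add, hf, hh]; ring
  | single i r =>
    unfold LaurentPolynomial.T
    rw [AddMonoidAlgebra.single_mul_single, D_single, D_single, AddMonoidAlgebra.single_mul_single,
      one_mul, one_mul]
    have h1 : (1 : ℤ) + i - 1 = i := by ring
    have h2 : (1 : ℤ) + (i - 1) = i := by ring
    rw [h1, h2, ← AddMonoidAlgebra.single_add]
    congr 1
    push_cast
    ring

variable {n}

/-- The derivative of the coefficients. -/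
noncomputable def DT : Sy F n →ₗ[F] Sy F n where
  toFun f := AddMonoidAlgebra.ofCoeff
    (Finsupp.mapRange (D F) (map_zero _) (AddMonoidAlgebra.coeff f))
  map_add' f h := by
    rw [AddMonoidAlgebra.coeff_add, Finsupp.mapRange_add (map_add _)]
    rfl
  map_smul' r f := by
    rw [AddMonoidAlgebra.coeff_smul, Finsupp.mapRange_smul' (hf := map_zero _) r r]
    · rfl
    · intro x; rw [map_smul]

lemma coeff_DT (m : Vr n →₀ ℕ) (f : Sy F n) : coeff m (DT f) = D F (coeff m f) := by
  show (Finsupp.mapRange (D F) (map_zero _) (AddMonoidAlgebra.coeff f)) m = _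
  rw [Finsupp.mapRange_apply]
  rfl

/-- The operators of the generators on the ring of symbols. -/
noncomputable def op : Gen n → Module.End F (Sy F n)
  | Gen.t => LinearMap.mulLeft F (C (LaurentPolynomial.T 1))
  | Gen.tinv => LinearMap.mulLeft F (C (LaurentPolynomial.T (-1)))
  | Gen.d => LinearMap.mulLeft F (X (Sum.inr none)) + DT
  | Gen.s i => LinearMap.mulLeft F (X (Sum.inl i))
  | Gen.p i => LinearMap.mulLeft F (X (Sum.inr (some i))) +
      ((pderiv (R := RL F) (Sum.inl i : Vr n)).toLinearMap.restrictScalars F)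

lemma op_t (f : Sy F n) : op Gen.t f = C (LaurentPolynomial.T 1) * f := rfl
lemma op_tinv (f : Sy F n) : op Gen.tinv f = C (LaurentPolynomial.T (-1)) * f := rfl
lemma op_d (f : Sy F n) : op Gen.d f = X (Sum.inr none) * f + DT f := rfl
lemma op_s (i : Fin n) (f : Sy F n) : op (Gen.s i) f = X (Sum.inl i) * f := rfl
lemma op_p (i : Fin n) (f : Sy F n) : op (Gen.p i) f = X (Sum.inr (some i)) * f +
    pderiv (Sum.inl i) f := rfl

lemma DT_C_T_mul (f : Sy F n) : DT (C (LaurentPolynomial.T 1) * f) =
    C (LaurentPolynomial.T 1) * DT f + f := by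
  apply MvPolynomial.ext
  intro m
  rw [coeff_DT, coeff_C_mul, D_T_mul, coeff_add, coeff_C_mul, coeff_DT]

lemma DT_X_mul (v : Vr n) (f : Sy F n) : DT (X v * f) = X v * DT f := by
  classical
  apply MvPolynomial.ext
  intro m
  rw [coeff_DT, coeff_X_mul', coeff_X_mul']
  split_ifs
  · rw [coeff_DT]
  · rw [map_zero]

lemma DT_pderiv (v : Vr n) (f : Sy F n) : DT (pderiv v f) = pderiv v (DT f) := by
  apply MvPolynomial.ext
  intro m
  have h1 : ((m v : RL F) + 1) = ((m v + 1 : ℕ) : RL F) := by push_cast; ring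
  rw [coeff_DT, coeff_pderiv, coeff_pderiv, coeff_DT, h1, ← nsmul_eq_mul', ← nsmul_eq_mul',
    map_nsmul]

/-- The representation on the ring of symbols. -/
noncomputable def ρ : LW F n →ₐ[F] Module.End F (Sy F n) :=
  RingQuot.liftAlgHom F ⟨FreeAlgebra.lift F op, by
    classical
    intro x y h
    induction h with
    | t_tinv =>
      apply LinearMap.ext; intro f
      simp only [map_mul, FreeAlgebra.lift_ι_apply, Module.End.mul_apply, op_t, op_tinv, map_one,
        Module.End.one_apply]
      rw [← mul_assoc, ← C_mul, ← LaurentPolynomial.T_add]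
      simp
    | tinv_t =>
      apply LinearMap.ext; intro f
      simp only [map_mul, FreeAlgebra.lift_ι_apply, Module.End.mul_apply, op_t, op_tinv, map_one,
        Module.End.one_apply]
      rw [← mul_assoc, ← C_mul, ← LaurentPolynomial.T_add]
      simp
    | d_t =>
      apply LinearMap.ext; intro f
      simp only [map_mul, map_add, FreeAlgebra.lift_ι_apply, Module.End.mul_apply, op_t, op_d,
        map_one, Module.End.one_apply, LinearMap.add_apply, DT_C_T_mul]
      ring
    | p_s i j =>
      apply LinearMap.ext; intro f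
      simp only [map_mul, map_add, FreeAlgebra.lift_ι_apply, Module.End.mul_apply, op_p, op_s,
        LinearMap.add_apply, pderiv_mul]
      by_cases hij : i = j
      · subst hij
        simp only [if_true, map_one, Module.End.one_apply, pderiv_X_self]
        ring
      · have h2 : (Sum.inl j : Vr n) ≠ Sum.inl i := fun h => hij (Sum.inl_injective h).symm
        simp only [if_neg hij, map_zero, LinearMap.zero_apply, pderiv_X_of_ne h2]
        ring
    | s_s i j =>
      apply LinearMap.ext; intro f
      simp only [map_mul, FreeAlgebra.lift_ι_apply, Module.End.mul_apply, op_s]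
      ring
    | p_p i j =>
      apply LinearMap.ext; intro f
      have h2 : ∀ a b : Fin n, pderiv (Sum.inl a : Vr n) (X (Sum.inr (some b)) * f : Sy F n) =
          X (Sum.inr (some b)) * pderiv (Sum.inl a) f := by
        intro a b
        rw [pderiv_mul, pderiv_X_of_ne (by simp), zero_mul, zero_add]
      have h3 : pderiv (Sum.inl i : Vr n) (pderiv (Sum.inl j) f) =
          pderiv (Sum.inl j : Vr n) (pderiv (Sum.inl i) f) := by
        apply MvPolynomial.ext
        intro m
        by_cases hij : i = j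
        · subst hij; rfl
        · have h4 : (Sum.inl j : Vr n) ≠ Sum.inl i := fun h => hij (Sum.inl_injective h).symm
          simp only [coeff_pderiv, Finsupp.add_apply, Finsupp.single_apply, if_neg h4,
            if_neg h4.symm, add_zero]
          rw [add_right_comm]
          ring
      simp only [map_mul, FreeAlgebra.lift_ι_apply, Module.End.mul_apply, op_p, map_add, h2, h3]
      ring
    | t_s i =>
      apply LinearMap.ext; intro f
      simp only [map_mul, FreeAlgebra.lift_ι_apply, Module.End.mul_apply, op_s, op_t]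
      ring
    | t_p i =>
      apply LinearMap.ext; intro f
      simp only [map_mul, FreeAlgebra.lift_ι_apply, Module.End.mul_apply, op_p, op_t, pderiv_C_mul]
      ring
    | d_s i =>
      apply LinearMap.ext; intro f
      simp only [map_mul, FreeAlgebra.lift_ι_apply, Module.End.mul_apply, op_s, op_d, DT_X_mul]
      ring
    | d_p i =>
      apply LinearMap.ext; intro f
      simp only [map_mul, FreeAlgebra.lift_ι_apply, Module.End.mul_apply, op_p, op_d, DT_X_mul,
        map_add, DT_pderiv, pderiv_mul, pderiv_X_of_ne (show (Sum.inr none : Vr n) ≠ Sum.inl i by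
          simp)]
      ring⟩

lemma ρ_γ (x : Gen n) : ρ (F := F) (γ x) = op x := by
  unfold ρ γ
  rw [RingQuot.liftAlgHom_mkAlgHom_apply, FreeAlgebra.lift_ι_apply]

end sym

end Pool.Agent.T2H43.WQ
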